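import Pool.Agent.Lib.MP_1fb0bc_al.Ins.Stmt

set_option autoImplicit false

namespace Pool.Agent.NilAdjF

universe u v

/-- a field whose additive group is finitely generated is finite -/
theorem finite_of_int_finite (F : Type u) [Field F] [Module.Finite ℤ F] : Finite F := by
  obtain ⟨p, hp⟩ := CharP.exists F
  rcases CharP.char_is_prime_or_zero F p with h | h
  · have : Fact p.Prime := ⟨h⟩
    let _ : Algebra (ZMod p) F := ZMod.algebra F p
    have h1 : IsScalarTower ℤ (ZMod p) F := inferInstance
    have h2 : Module.Finite (ZMod p) F := Module.Finite.of_restrictScalars_finite ℤ (ZMod p) F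
    exact Module.finite_of_finite (ZMod p)
  · subst h
    have : CharZero F := CharP.charP_to_charZero F
    have h1 : Function.Injective (algebraMap ℤ F) := by
      rw [algebraMap_int_eq]
      exact Int.cast_injective
    exact absurd (isField_of_isIntegral_of_isField h1 (Field.toIsField F)) Int.not_isField

section

variable {F : Type u} [Field F] {R : Type v} [NonUnitalRing R] [Module F R] [IsScalarTower F R R]
  [SMulCommClass F R R]

theorem inr_rpow (a : R) (n : ℕ) :
    (Unitization.inr (rpow a n) : Unitization F R) = (Unitization.inr a) ^ (n + 1) := by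
  induction n with
  | zero => rw [zero_add, pow_one]; rfl
  | succ n ih =>
    rw [pow_succ, ← ih, ← Unitization.inr_mul]
    rfl

theorem inr_mem_jacobson (hnil : IsNil R) (a : R) :
    (Unitization.inr a : Unitization F R) ∈ Ring.jacobson (Unitization F R) := by
  rw [← Ideal.jacobson_bot, Ideal.mem_jacobson_iff]
  intro y
  have h1 : y * Unitization.inr a = Unitization.inr (y.fst • a + y.snd * a) := by
    conv_lhs => rw [← Unitization.inl_fst_add_inr_snd_eq y]
    rw [add_mul, Unitization.inl_mul_inr, ← Unitization.inr_mul, Unitization.inr_add]
  obtain ⟨n, hn⟩ := hnil (y.fst • a + y.snd * a)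
  have h2 : IsNilpotent (y * Unitization.inr a) := by
    refine ⟨n + 1, ?_⟩
    rw [h1, ← inr_rpow, hn, Unitization.inr_zero]
  obtain ⟨u, hu⟩ := h2.isUnit_one_add
  refine ⟨((u⁻¹ : (Unitization F R)ˣ) : Unitization F R), ?_⟩
  rw [Ideal.mem_bot]
  have h3 : ((u⁻¹ : (Unitization F R)ˣ) : Unitization F R) * (1 + y * Unitization.inr a) = 1 := by
    rw [← hu]; exact Units.inv_mul u
  rw [mul_add, mul_one, ← mul_assoc] at h3
  rw [add_comm _ ((u⁻¹ : (Unitization F R)ˣ) : Unitization F R), h3, sub_self]

/-- If a nonzero nil algebra over a field has a finitely generated adjoint group, then the field is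
finite. -/
theorem finite_of_adjoint_fg (hnil : IsNil R) (hne : ∃ a : R, a ≠ 0) {T : Set R} (hT : T.Finite)
    (hgen : GeneratesAdjoint T) : Finite F := by
  classical
  set M : Submodule (Unitization F R) (Unitization F R) :=
    Submodule.span (Unitization F R) ((fun t : R => (Unitization.inr t : Unitization F R)) '' T)
    with hM
  have hMfg : M.FG := Submodule.fg_span (hT.image _)
  have hMall : ∀ a : R, (Unitization.inr a : Unitization F R) ∈ M := by
    have h := hgen {a | (Unitization.inr a : Unitization F R) ∈ M} ?_ ?_ ?_ ?_
    · intro a
      have : a ∈ (Set.univ : Set R) := Set.mem_univ a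
      rw [← h] at this
      exact this
    · intro t ht
      exact Submodule.subset_span ⟨t, ht, rfl⟩
    · show (Unitization.inr (0 : R) : Unitization F R) ∈ M
      rw [Unitization.inr_zero]
      exact M.zero_mem
    · intro a ha b hb
      show (Unitization.inr (a + b + a * b) : Unitization F R) ∈ M
      rw [Unitization.inr_add, Unitization.inr_add, Unitization.inr_mul]
      exact M.add_mem (M.add_mem ha hb) (M.smul_mem (Unitization.inr a) hb)
    · intro a ha b _ hba
      show (Unitization.inr b : Unitization F R) ∈ M
      have h1 : (Unitization.inr b : Unitization F R) =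
          (-(1 + Unitization.inr b) : Unitization F R) • (Unitization.inr a : Unitization F R) := by
        have h2 : (Unitization.inr (b + a + b * a) : Unitization F R) = 0 := by
          rw [hba, Unitization.inr_zero]
        rw [Unitization.inr_add, Unitization.inr_add, Unitization.inr_mul] at h2
        rw [smul_eq_mul, neg_mul, add_mul, one_mul]
        rw [eq_neg_iff_add_eq_zero, ← add_assoc]
        exact h2
      rw [h1]
      exact M.smul_mem _ ha
  -- the square of `R` is a proper subspace
  set P : Submodule F R := Submodule.span F {x | ∃ a b : R, x = a * b} with hP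
  have hPlt : P < ⊤ := by
    rw [lt_top_iff_ne_top]
    intro htop
    have hle : M ≤ Ring.jacobson (Unitization F R) • M := by
      rw [hM, Submodule.span_le]
      rintro _ ⟨t, -, rfl⟩
      have ht : t ∈ P := by rw [htop]; trivial
      rw [← hM]
      show (Unitization.inr t : Unitization F R) ∈ Ring.jacobson (Unitization F R) • M
      induction ht using Submodule.span_induction with
      | mem x hx =>
        obtain ⟨a, b, rfl⟩ := hx
        rw [Unitization.inr_mul]
        exact Submodule.smul_mem_smul (inr_mem_jacobson hnil a) (hMall b)
      | zero =>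
        rw [Unitization.inr_zero]
        exact Submodule.zero_mem _
      | add x y _ _ hx hy =>
        rw [Unitization.inr_add]
        exact Submodule.add_mem _ hx hy
      | smul c x _ hx =>
        have : (Unitization.inr (c • x) : Unitization F R) =
            (Unitization.inl c : Unitization F R) • (Unitization.inr x : Unitization F R) := by
          rw [smul_eq_mul, Unitization.inl_mul_inr]
        rw [this]
        exact Submodule.smul_mem _ _ hx
    have hbot := hMfg.eq_bot_of_le_jacobson_smul hle
    obtain ⟨a, ha⟩ := hne
    have h1 := hMall a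
    rw [hbot, Submodule.mem_bot] at h1
    exact ha (Unitization.inr_injective (R := F) (by rw [h1, Unitization.inr_zero]))
  obtain ⟨f, hf0, hfP⟩ := Submodule.exists_le_ker_of_lt_top P hPlt
  have hfmul : ∀ a b : R, f (a * b) = 0 := fun a b =>
    LinearMap.mem_ker.1 (hfP (Submodule.subset_span ⟨a, b, rfl⟩))
  have hfsurj : Function.Surjective f := LinearMap.surjective hf0
  have hcl : AddSubgroup.closure (f '' T) = ⊤ := by
    have h := hgen {a | f a ∈ AddSubgroup.closure (f '' T)} ?_ ?_ ?_ ?_
    · rw [eq_top_iff]
      intro c _
      obtain ⟨a, rfl⟩ := hfsurj c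
      have : a ∈ (Set.univ : Set R) := Set.mem_univ a
      rw [← h] at this
      exact this
    · intro t ht
      exact AddSubgroup.subset_closure ⟨t, ht, rfl⟩
    · show f 0 ∈ AddSubgroup.closure (f '' T)
      rw [map_zero]
      exact zero_mem _
    · intro a ha b hb
      show f (a + b + a * b) ∈ AddSubgroup.closure (f '' T)
      rw [map_add, map_add, hfmul, add_zero]
      exact add_mem ha hb
    · intro a ha b hab _
      show f b ∈ AddSubgroup.closure (f '' T)
      have h1 : f (a + b + a * b) = 0 := by rw [hab, map_zero]
      rw [map_add, map_add, hfmul, add_zero] at h1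
      rw [← neg_eq_of_add_eq_zero_right h1]
      exact neg_mem ha
  have hfg : AddGroup.FG F := ⟨⟨(hT.image f).toFinset, by rw [Set.Finite.coe_toFinset]; exact hcl⟩⟩
  have : Module.Finite ℤ F := Module.Finite.iff_addGroup_fg.2 hfg
  exact finite_of_int_finite F

end

end Pool.Agent.NilAdjF
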