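import Pool.Agent.Lib.MP_1fb0bc_al.Ins.Defs

set_option autoImplicit false

namespace Pool.Agent.NilAdjF

variable {F : Type} [Field F]

/-- the value on `2 × 2` block matrices -/
noncomputable def dbl {B : Type} [Ring B] {K : Type} [CommGroup K] {ι : Type} [Fintype ι]
    [DecidableEq ι] (κ : Matrix ι ι B → K) (g : Matrix (ι ⊕ ι) (ι ⊕ ι) B) : K :=
  κ g.toBlocks₁₁ *
    κ (g.toBlocks₂₂ - g.toBlocks₂₁ * Ring.inverse g.toBlocks₁₁ * g.toBlocks₁₂)

private structure IsRad {M : Type*} [Ring M] (S : Set M) : Prop where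
  zero : (0 : M) ∈ S
  add : ∀ x ∈ S, ∀ y ∈ S, x + y ∈ S
  neg : ∀ x ∈ S, -x ∈ S
  mul : ∀ x ∈ S, ∀ y ∈ S, x * y ∈ S
  inv : ∀ x ∈ S, ∃ y ∈ S, (1 + x) * (1 + y) = 1 ∧ (1 + y) * (1 + x) = 1

private lemma isRad_of_nil {M : Type*} [Ring M] {S : Set M} (zero : (0 : M) ∈ S)
    (add : ∀ x ∈ S, ∀ y ∈ S, x + y ∈ S) (neg : ∀ x ∈ S, -x ∈ S)
    (mul : ∀ x ∈ S, ∀ y ∈ S, x * y ∈ S) (nil : ∀ x ∈ S, IsNilpotent x) : IsRad S := by
  refine ⟨zero, add, neg, mul, fun x hx => ?_⟩
  obtain ⟨n, hn⟩ := nil x hx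
  have hpow : ∀ k, (-x) ^ (k + 1) ∈ S := by
    intro k
    induction k with
    | zero => rw [zero_add, pow_one]; exact neg x hx
    | succ k ih => rw [pow_succ]; exact mul _ ih _ (neg x hx)
  have hsum : ∀ k, ∑ i ∈ Finset.range k, (-x) ^ (i + 1) ∈ S := by
    intro k
    induction k with
    | zero => rw [Finset.sum_range_zero]; exact zero
    | succ k ih => rw [Finset.sum_range_succ]; exact add _ ih _ (hpow k)
  have h0 : (-x) ^ (n + 1) = 0 := by rw [neg_pow, pow_succ x, hn, zero_mul, mul_zero]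
  refine ⟨∑ i ∈ Finset.range n, (-x) ^ (i + 1), hsum n, ?_, ?_⟩
  · have h1 := mul_neg_geom_sum (-x) (n + 1)
    rw [Finset.sum_range_succ', h0, pow_zero, sub_neg_eq_add, sub_zero, add_comm _ (1 : M)] at h1
    exact h1
  · have h1 := geom_sum_mul_neg (-x) (n + 1)
    rw [Finset.sum_range_succ', h0, pow_zero, sub_neg_eq_add, sub_zero, add_comm _ (1 : M)] at h1
    exact h1

private lemma inverse_of {M : Type*} [Ring M] {a b : M} (h1 : a * b = 1) (h2 : b * a = 1) :
    Ring.inverse a = b :=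
  Ring.inverse_unit ⟨a, b, h1, h2⟩

section abstract

variable {M : Type*} [Ring M] {K : Type*} [CommGroup K] {S : Set M} {κ : M → K}

private lemma det_one (hS : IsRad S) (h : IsDet S κ) : κ 1 = 1 := by
  have h1 := h.mul 0 hS.zero 0 hS.zero
  rw [add_zero, mul_one] at h1
  exact (mul_eq_left.1 h1.symm)

private lemma det_mul' (h : IsDet S κ) {a b : M} (ha : a - 1 ∈ S) (hb : b - 1 ∈ S) :
    κ (a * b) = κ a * κ b := by
  have h1 := h.mul _ ha _ hb
  rwa [add_sub_cancel, add_sub_cancel] at h1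

private lemma rad_mul (hS : IsRad S) {a b : M} (ha : a - 1 ∈ S) (hb : b - 1 ∈ S) :
    a * b - 1 ∈ S := by
  have : a * b - 1 = (a - 1) * (b - 1) + ((a - 1) + (b - 1)) := by noncomm_ring
  rw [this]
  exact hS.add _ (hS.mul _ ha _ hb) _ (hS.add _ ha _ hb)

private lemma rad_inv (hS : IsRad S) {a : M} (ha : a - 1 ∈ S) :
    ∃ b : M, b - 1 ∈ S ∧ a * b = 1 ∧ b * a = 1 := by
  obtain ⟨y, hy, h1, h2⟩ := hS.inv _ ha
  rw [add_sub_cancel] at h1 h2
  exact ⟨1 + y, by rwa [add_sub_cancel_left], h1, h2⟩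

private lemma rad_mul_left (hS : IsRad S) {a x : M} (ha : a - 1 ∈ S) (hx : x ∈ S) :
    a * x ∈ S := by
  have : a * x = (a - 1) * x + x := by noncomm_ring
  rw [this]
  exact hS.add _ (hS.mul _ ha _ hx) _ hx

private lemma rad_mul_right (hS : IsRad S) {a x : M} (ha : a - 1 ∈ S) (hx : x ∈ S) :
    x * a ∈ S := by
  have : x * a = x * (a - 1) + x := by noncomm_ring
  rw [this]
  exact hS.add _ (hS.mul _ hx _ ha) _ hx

private lemma rad_one (hS : IsRad S) : (1 : M) - 1 ∈ S := by rw [sub_self]; exact hS.zero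

private lemma schur_mul (hS : IsRad S) (h : IsDet S κ) {a b c d a' b' c' d' : M}
    (ha : a - 1 ∈ S) (hb : b ∈ S) (hc : c ∈ S) (hd : d - 1 ∈ S)
    (ha' : a' - 1 ∈ S) (hb' : b' ∈ S) (hc' : c' ∈ S) (hd' : d' - 1 ∈ S) :
    κ (a * a' + b * c') * κ ((c * b' + d * d') -
        (c * a' + d * c') * Ring.inverse (a * a' + b * c') * (a * b' + b * d')) =
      (κ a * κ (d - c * Ring.inverse a * b)) * (κ a' * κ (d' - c' * Ring.inverse a' * b')) := by
  obtain ⟨ai, hai, h1, h2⟩ := rad_inv hS ha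
  obtain ⟨ai', hai', h1', h2'⟩ := rad_inv hS ha'
  obtain ⟨y, hy⟩ : ∃ y, y = ai * b := ⟨_, rfl⟩
  obtain ⟨x, hx⟩ : ∃ x, x = c' * ai' := ⟨_, rfl⟩
  have hyS : y ∈ S := by rw [hy]; exact rad_mul_left hS hai hb
  have hxS : x ∈ S := by rw [hx]; exact rad_mul_right hS hai' hc'
  have hby : b = a * y := by rw [hy, ← mul_assoc, h1, one_mul]
  have hcx : c' = x * a' := by rw [hx, mul_assoc, h2', mul_one]
  have hTS : (1 + y * x) - 1 ∈ S := by rw [add_sub_cancel_left]; exact hS.mul _ hyS _ hxS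
  obtain ⟨z, hzS, h3, h4⟩ := rad_inv hS hTS
  obtain ⟨T, hT⟩ : ∃ T, T = 1 + y * x := ⟨_, rfl⟩
  rw [← hT] at hTS h3 h4
  have hTop : a * a' + b * c' = a * T * a' := by rw [hby, hcx, hT]; noncomm_ring
  have hinv : Ring.inverse (a * a' + b * c') = ai' * z * ai := by
    rw [hTop]
    apply inverse_of
    · calc a * T * a' * (ai' * z * ai) = a * T * (a' * ai') * z * ai := by noncomm_ring
        _ = a * (T * z) * ai := by rw [h1']; noncomm_ring
        _ = 1 := by rw [h3, mul_one, h1]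
    · calc ai' * z * ai * (a * T * a') = ai' * z * (ai * a) * T * a' := by noncomm_ring
        _ = ai' * (z * T) * a' := by rw [h2]; noncomm_ring
        _ = 1 := by rw [h4, mul_one, h2']
  rw [hinv, inverse_of h1 h2, inverse_of h1' h2', hTop]
  obtain ⟨s, hs⟩ : ∃ s, s = d - c * y := ⟨_, rfl⟩
  obtain ⟨s', hs'⟩ : ∃ s', s' = d' - x * b' := ⟨_, rfl⟩
  have e1 : d - c * ai * b = s := by rw [hs, hy]; noncomm_ring
  have e2 : d' - c' * ai' * b' = s' := by rw [hs', hx]
  have hd2 : d = s + c * y := by rw [hs]; abel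
  have hd2' : d' = s' + x * b' := by rw [hs']; abel
  have hsS : s - 1 ∈ S := by
    have : s - 1 = (d - 1) + -(c * y) := by rw [hs]; abel
    rw [this]
    exact hS.add _ hd _ (hS.neg _ (hS.mul _ hc _ hyS))
  have hsS' : s' - 1 ∈ S := by
    have : s' - 1 = (d' - 1) + -(x * b') := by rw [hs']; abel
    rw [this]
    exact hS.add _ hd' _ (hS.neg _ (hS.mul _ hxS _ hb'))
  have e3 : (c * a' + d * c') * (ai' * z * ai) * (a * b' + b * d') =
      (c + d * x) * z * (b' + y * d') := by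
    have e4 : (c * a' + d * c') * ai' = c + d * x := by
      rw [add_mul, mul_assoc, h1', mul_one, mul_assoc, ← hx]
    have e5 : ai * (a * b' + b * d') = b' + y * d' := by
      rw [mul_add, ← mul_assoc, h2, one_mul, ← mul_assoc, ← hy]
    calc _ = ((c * a' + d * c') * ai') * z * (ai * (a * b' + b * d')) := by noncomm_ring
      _ = _ := by rw [e4, e5]
  have e6 : c + d * x = c * T + s * x := by rw [hd2, hT]; noncomm_ring
  have e7 : b' + y * d' = T * b' + y * s' := by rw [hd2', hT]; noncomm_ring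
  have e8 : (c * b' + d * d') - (c + d * x) * z * (b' + y * d') = s * (1 - x * z * y) * s' := by
    have e9 : (c * T + s * x) * z * (T * b' + y * s') =
        c * T * b' + c * y * s' + s * x * b' + s * x * z * y * s' := by
      calc (c * T + s * x) * z * (T * b' + y * s') =
          c * (T * z) * T * b' + c * (T * z) * y * s' + s * x * (z * T) * b' +
            s * x * z * y * s' := by noncomm_ring
        _ = _ := by rw [h3, h4]; noncomm_ring
    rw [e6, e7, e9, hd2, hd2', hT]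
    noncomm_ring
  rw [e1, e2, e3, e8]
  have hwS : (1 - x * z * y) - 1 ∈ S := by
    rw [show (1 - x * z * y) - 1 = -(x * z * y) by abel]
    exact hS.neg _ (hS.mul _ (rad_mul_right hS hzS hxS) _ hyS)
  have hw : κ (1 + x * y) * κ (1 - x * z * y) = 1 := by
    rw [← det_mul' h (by rw [add_sub_cancel_left]; exact hS.mul _ hxS _ hyS) hwS,
      ← det_one hS h]
    congr 1
    calc (1 + x * y) * (1 - x * z * y) = 1 + x * y - x * (1 + y * x) * z * y := by noncomm_ring
      _ = 1 + x * y - x * (T * z) * y := by rw [← hT]; noncomm_ring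
      _ = 1 := by rw [h3]; noncomm_ring
  have hcomm := h.comm x hxS y hyS
  rw [hcomm, ← hT] at hw
  rw [det_mul' h (rad_mul hS ha hTS) ha', det_mul' h ha hTS, det_mul' h (rad_mul hS hsS hwS) hsS',
    det_mul' h hsS hwS]
  calc κ a * κ T * κ a' * (κ s * κ (1 - x * z * y) * κ s') =
      (κ T * κ (1 - x * z * y)) * (κ a * κ a' * κ s * κ s') := by ac_rfl
    _ = κ a * κ s * (κ a' * κ s') := by
        rw [hw, one_mul]; ac_rfl

private lemma comm_add (hS : IsRad S)
    (hmul : ∀ x ∈ S, ∀ y ∈ S, κ ((1 + x) * (1 + y)) = κ (1 + x) * κ (1 + y)) {a a' : M}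
    (ha : a ∈ S) (ha' : a' ∈ S) (h : ∀ b ∈ S, κ (1 + a * b) = κ (1 + b * a))
    (h' : ∀ b ∈ S, κ (1 + a' * b) = κ (1 + b * a')) :
    ∀ b ∈ S, κ (1 + (a + a') * b) = κ (1 + b * (a + a')) := by
  intro b hb
  obtain ⟨y, hy, h1, h2⟩ := hS.inv _ (hS.mul _ ha _ hb)
  obtain ⟨z, hz, h3, h4⟩ := hS.inv _ (hS.mul _ hb _ ha)
  have hbi : b * (1 + y) = (1 + z) * b := by
    calc b * (1 + y) = ((1 + z) * (1 + b * a)) * b * (1 + y) := by rw [h4, one_mul]
      _ = (1 + z) * b * ((1 + a * b) * (1 + y)) := by noncomm_ring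
      _ = (1 + z) * b := by rw [h1, mul_one]
  have hbS : b * (1 + y) ∈ S := rad_mul_right hS (by rwa [add_sub_cancel_left]) hb
  have e1 : 1 + (a + a') * b = (1 + a' * (b * (1 + y))) * (1 + a * b) := by
    calc 1 + (a + a') * b = (1 + a * b) + a' * b * 1 := by noncomm_ring
      _ = (1 + a * b) + a' * b * ((1 + y) * (1 + a * b)) := by rw [h2]
      _ = _ := by noncomm_ring
  have e2 : 1 + b * (a + a') = (1 + b * a) * (1 + (b * (1 + y)) * a') := by
    rw [hbi]
    calc 1 + b * (a + a') = (1 + b * a) + 1 * b * a' := by noncomm_ring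
      _ = (1 + b * a) + ((1 + b * a) * (1 + z)) * b * a' := by rw [h3]
      _ = _ := by noncomm_ring
  rw [e1, e2, hmul _ (hS.mul _ ha' _ hbS) _ (hS.mul _ ha _ hb),
    hmul _ (hS.mul _ hb _ ha) _ (hS.mul _ hbS _ ha'), h b hb, h' _ hbS, mul_comm]

end abstract

private lemma matSet_rad {B : Type} [Ring B] [Algebra F B] (J : NonUnitalSubalgebra F B)
    (hnil : ∀ (ι : Type) [Fintype ι] [DecidableEq ι] (A : Matrix ι ι B),
      A ∈ matSet (J : Set B) ι → IsNilpotent A)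
    (ι : Type) [Fintype ι] [DecidableEq ι] : IsRad (matSet (J : Set B) ι) := by
  refine isRad_of_nil (fun i j => J.zero_mem) (fun x hx y hy i j => J.add_mem (hx i j) (hy i j))
    (fun x hx i j => ?_) (fun x hx y hy i j => ?_) (hnil ι)
  · rw [Matrix.neg_apply]
    exact J.neg_mem (hx i j)
  · rw [Matrix.mul_apply]
    exact sum_mem fun k _ => J.mul_mem (hx i k) (hy k j)

section blocks

variable {B : Type} [Ring B] {K : Type} [CommGroup K] {ι : Type} [Fintype ι] [DecidableEq ι]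

private lemma dbl_fromBlocks (κ : Matrix ι ι B → K) (a b c d : Matrix ι ι B) :
    dbl κ (Matrix.fromBlocks a b c d) = κ a * κ (d - c * Ring.inverse a * b) := by
  simp [dbl]

private lemma blocks_of {J : Set B} {X : Matrix (ι ⊕ ι) (ι ⊕ ι) B}
    (hX : X ∈ matSet J (ι ⊕ ι)) : ∃ a ∈ matSet J ι, ∃ b ∈ matSet J ι, ∃ c ∈ matSet J ι,
      ∃ d ∈ matSet J ι, X = Matrix.fromBlocks a b c d :=
  ⟨X.toBlocks₁₁, fun _ _ => hX _ _, X.toBlocks₁₂, fun _ _ => hX _ _, X.toBlocks₂₁,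
    fun _ _ => hX _ _, X.toBlocks₂₂, fun _ _ => hX _ _, (Matrix.fromBlocks_toBlocks X).symm⟩

private lemma one_add_blocks (a b c d : Matrix ι ι B) :
    1 + Matrix.fromBlocks a b c d = Matrix.fromBlocks (1 + a) b c (1 + d) := by
  rw [← Matrix.fromBlocks_one, Matrix.fromBlocks_add, zero_add, zero_add]

private lemma blocks_mem {J : Set B} {a b c d : Matrix ι ι B} (ha : a ∈ matSet J ι)
    (hb : b ∈ matSet J ι) (hc : c ∈ matSet J ι) (hd : d ∈ matSet J ι) :
    Matrix.fromBlocks a b c d ∈ matSet J (ι ⊕ ι) := by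
  rintro (i | i) (j | j)
  · exact ha i j
  · exact hb i j
  · exact hc i j
  · exact hd i j

end blocks

theorem IsDet.double {B : Type} [Ring B] [Algebra F B] {K : Type} [CommGroup K]
    (J : NonUnitalSubalgebra F B)
    (hnil : ∀ (ι : Type) [Fintype ι] [DecidableEq ι] (A : Matrix ι ι B),
      A ∈ matSet (J : Set B) ι → IsNilpotent A)
    {ι : Type} [Fintype ι] [DecidableEq ι] (κ : Matrix ι ι B → K)
    (h : IsDet (matSet (J : Set B) ι) κ) :
    IsDet (matSet (J : Set B) (ι ⊕ ι)) (dbl κ) := by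
  have hS := matSet_rad J hnil ι
  have hS2 := matSet_rad J hnil (ι ⊕ ι)
  have hone := det_one hS h
  have hmul : ∀ x ∈ matSet (J : Set B) (ι ⊕ ι), ∀ y ∈ matSet (J : Set B) (ι ⊕ ι),
      dbl κ ((1 + x) * (1 + y)) = dbl κ (1 + x) * dbl κ (1 + y) := by
    intro X hX Y hY
    obtain ⟨a, ha, b, hb, c, hc, d, hd, rfl⟩ := blocks_of hX
    obtain ⟨a', ha', b', hb', c', hc', d', hd', rfl⟩ := blocks_of hY
    rw [one_add_blocks, one_add_blocks, Matrix.fromBlocks_multiply, dbl_fromBlocks,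
      dbl_fromBlocks, dbl_fromBlocks]
    exact schur_mul hS h (by rwa [add_sub_cancel_left]) hb hc (by rwa [add_sub_cancel_left])
      (by rwa [add_sub_cancel_left]) hb' hc' (by rwa [add_sub_cancel_left])
  refine ⟨hmul, ?_⟩
  have hinv1 : Ring.inverse (1 : Matrix ι ι B) = 1 := Ring.inverse_one _
  -- one block
  have c11 : ∀ x ∈ matSet (J : Set B) ι, ∀ Y ∈ matSet (J : Set B) (ι ⊕ ι),
      dbl κ (1 + Matrix.fromBlocks x 0 0 0 * Y) = dbl κ (1 + Y * Matrix.fromBlocks x 0 0 0) := by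
    intro x hx Y hY
    obtain ⟨a, ha, b, hb, c, hc, d, hd, rfl⟩ := blocks_of hY
    rw [Matrix.fromBlocks_multiply, Matrix.fromBlocks_multiply, one_add_blocks, one_add_blocks,
      dbl_fromBlocks, dbl_fromBlocks]
    simp only [zero_mul, mul_zero, add_zero, zero_add, sub_zero, hone, mul_one]
    exact h.comm x hx a ha
  have c12 : ∀ x ∈ matSet (J : Set B) ι, ∀ Y ∈ matSet (J : Set B) (ι ⊕ ι),
      dbl κ (1 + Matrix.fromBlocks 0 x 0 0 * Y) = dbl κ (1 + Y * Matrix.fromBlocks 0 x 0 0) := by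
    intro x hx Y hY
    obtain ⟨a, ha, b, hb, c, hc, d, hd, rfl⟩ := blocks_of hY
    rw [Matrix.fromBlocks_multiply, Matrix.fromBlocks_multiply, one_add_blocks, one_add_blocks,
      dbl_fromBlocks, dbl_fromBlocks]
    simp only [zero_mul, mul_zero, add_zero, zero_add, sub_zero, hone, mul_one, one_mul]
    exact h.comm x hx c hc
  have c21 : ∀ x ∈ matSet (J : Set B) ι, ∀ Y ∈ matSet (J : Set B) (ι ⊕ ι),
      dbl κ (1 + Matrix.fromBlocks 0 0 x 0 * Y) = dbl κ (1 + Y * Matrix.fromBlocks 0 0 x 0) := by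
    intro x hx Y hY
    obtain ⟨a, ha, b, hb, c, hc, d, hd, rfl⟩ := blocks_of hY
    rw [Matrix.fromBlocks_multiply, Matrix.fromBlocks_multiply, one_add_blocks, one_add_blocks,
      dbl_fromBlocks, dbl_fromBlocks]
    simp only [zero_mul, mul_zero, add_zero, zero_add, sub_zero, hone, mul_one, one_mul]
    exact h.comm x hx b hb
  have c22 : ∀ x ∈ matSet (J : Set B) ι, ∀ Y ∈ matSet (J : Set B) (ι ⊕ ι),
      dbl κ (1 + Matrix.fromBlocks 0 0 0 x * Y) = dbl κ (1 + Y * Matrix.fromBlocks 0 0 0 x) := by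
    intro x hx Y hY
    obtain ⟨a, ha, b, hb, c, hc, d, hd, rfl⟩ := blocks_of hY
    rw [Matrix.fromBlocks_multiply, Matrix.fromBlocks_multiply, one_add_blocks, one_add_blocks,
      dbl_fromBlocks, dbl_fromBlocks]
    simp only [zero_mul, mul_zero, add_zero, zero_add, sub_zero, hone, mul_one, one_mul]
    exact h.comm x hx d hd
  intro X hX
  obtain ⟨a, ha, b, hb, c, hc, d, hd, rfl⟩ := blocks_of hX
  have hdec : Matrix.fromBlocks a b c d = ((Matrix.fromBlocks a 0 0 0 +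
      Matrix.fromBlocks 0 b 0 0) + Matrix.fromBlocks 0 0 c 0) + Matrix.fromBlocks 0 0 0 d := by
    simp only [Matrix.fromBlocks_add, add_zero, zero_add]
  rw [hdec]
  have z0 := hS.zero
  exact comm_add hS2 hmul
    (hS2.add _ (hS2.add _ (blocks_mem ha z0 z0 z0) _ (blocks_mem z0 hb z0 z0)) _
      (blocks_mem z0 z0 hc z0)) (blocks_mem z0 z0 z0 hd)
    (comm_add hS2 hmul (hS2.add _ (blocks_mem ha z0 z0 z0) _ (blocks_mem z0 hb z0 z0))
      (blocks_mem z0 z0 hc z0)
      (comm_add hS2 hmul (blocks_mem ha z0 z0 z0) (blocks_mem z0 hb z0 z0)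
        (c11 a ha) (c12 b hb)) (c21 c hc)) (c22 d hd)

end Pool.Agent.NilAdjF
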