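import Pool.Agent.Lib.MP_1fb0bc_al.Ins.Tri

set_option autoImplicit false

namespace Pool.Agent.NilAdjF

variable {F : Type} [Field F]

variable {B : Type} [Ring B] [Algebra F B]

/-- the group generators: `1 + t` for these `t` -/
def elemGens (F : Type) [Field F] {B : Type} [Ring B] [Algebra F B] (G Y : Set B) :
    Set (Matrix (Fin 3) (Fin 3) B) :=
  {A | ∃ i j, i < j ∧ ∃ c : F, A = Matrix.single i j (algebraMap F B c)} ∪
    {A | ∃ i j, i ≠ j ∧ ∃ g ∈ G, A = Matrix.single i j g} ∪
    {A | ∃ y ∈ Y, A = Matrix.single 0 0 y}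

/-- the group generated by the `1 + t`, `t ∈ elemGens F G Y` -/
def Gam (F : Type) [Field F] {B : Type} [Ring B] [Algebra F B] (G Y : Set B) : Subgroup (Matrix (Fin 3) (Fin 3) B)ˣ :=
  Subgroup.closure {v | ∃ t ∈ elemGens F G Y, (v : Matrix (Fin 3) (Fin 3) B) = 1 + t}

/-- the matrix `1 + A` is (the value of) an element of `Γ` -/
def InGam (F : Type) [Field F] {B : Type} [Ring B] [Algebra F B] (G Y : Set B) (A : Matrix (Fin 3) (Fin 3) B) : Prop :=
  ∃ u ∈ Gam F G Y, (u : Matrix (Fin 3) (Fin 3) B) = A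

/-- `diag` with `x` at `i`, `y` at `j`, `1` elsewhere -/
def diag2 (i j : Fin 3) (x y : B) : Matrix (Fin 3) (Fin 3) B :=
  Matrix.diagonal fun k => if k = i then x else if k = j then y else 1

theorem InGam.mul {G Y : Set B} {A A' : Matrix (Fin 3) (Fin 3) B} (h : InGam F G Y A)
    (h' : InGam F G Y A') : InGam F G Y (A * A') := by
  obtain ⟨u, hu, rfl⟩ := h
  obtain ⟨v, hv, rfl⟩ := h'
  exact ⟨u * v, mul_mem hu hv, rfl⟩

theorem InGam.one (G Y : Set B) : InGam F G Y 1 := ⟨1, one_mem _, rfl⟩

theorem InGam.inv {G Y : Set B} {A A' : Matrix (Fin 3) (Fin 3) B} (h : InGam F G Y A)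
    (h' : A * A' = 1) : InGam F G Y A' := by
  obtain ⟨u, hu, rfl⟩ := h
  refine ⟨u⁻¹, inv_mem hu, ?_⟩
  calc ((u⁻¹ : (Matrix (Fin 3) (Fin 3) B)ˣ) : Matrix (Fin 3) (Fin 3) B)
      = (u⁻¹ : (Matrix (Fin 3) (Fin 3) B)ˣ) * ((u : Matrix (Fin 3) (Fin 3) B) * A') := by
        rw [h', mul_one]
    _ = A' := by rw [← mul_assoc, Units.inv_mul, one_mul]

private theorem ss_ne {i j k l : Fin 3} (h : j ≠ k) (x y : B) :
    (Matrix.single i j x * Matrix.single k l y : Matrix (Fin 3) (Fin 3) B) = 0 :=
  Matrix.single_mul_single_of_ne _ _ _ _ h _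

private theorem e1_mul {i j : Fin 3} (hij : i ≠ j) (w w' : B) :
    (1 + Matrix.single i j w) * (1 + Matrix.single i j w') =
      (1 + Matrix.single i j (w + w') : Matrix (Fin 3) (Fin 3) B) := by
  rw [mul_add, mul_one, add_mul, one_mul, ss_ne hij.symm, Matrix.single_add]
  abel

private theorem e1_inv {i j : Fin 3} (hij : i ≠ j) (w : B) :
    (1 + Matrix.single i j w) * (1 + Matrix.single i j (-w)) =
      (1 : Matrix (Fin 3) (Fin 3) B) := by
  rw [e1_mul hij, add_neg_cancel, Matrix.single_zero, add_zero]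

private theorem e1_inv' {i j : Fin 3} (hij : i ≠ j) (w : B) :
    (1 + Matrix.single i j (-w)) * (1 + Matrix.single i j w) =
      (1 : Matrix (Fin 3) (Fin 3) B) := by
  rw [e1_mul hij, neg_add_cancel, Matrix.single_zero, add_zero]

private theorem e1_gen {G Y : Set B} {i j : Fin 3} (hij : i ≠ j) {w : B}
    (h : Matrix.single i j w ∈ elemGens F G Y) : InGam F G Y (1 + Matrix.single i j w) :=
  ⟨⟨1 + Matrix.single i j w, 1 + Matrix.single i j (-w), e1_inv hij w, e1_inv' hij w⟩,
    Subgroup.subset_closure ⟨_, h, rfl⟩, rfl⟩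

private theorem e1_comm {i j k : Fin 3} (hij : i ≠ j) (hki : k ≠ i) (hkj : k ≠ j) (x y : B) :
    (1 + Matrix.single i k x) * (1 + Matrix.single k j y) *
      ((1 + Matrix.single i k (-x)) * (1 + Matrix.single k j (-y))) =
      (1 + Matrix.single i j (x * y) : Matrix (Fin 3) (Fin 3) B) := by
  have h1 : (1 + Matrix.single i k x) * (1 + Matrix.single k j y) =
      (1 + Matrix.single i k x + Matrix.single k j y + Matrix.single i j (x * y) :
        Matrix (Fin 3) (Fin 3) B) := by
    rw [mul_add, mul_one, add_mul, one_mul, Matrix.single_mul_single_same]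
    abel
  have h2 : (1 + Matrix.single i k (-x)) * (1 + Matrix.single k j (-y)) =
      (1 - Matrix.single i k x - Matrix.single k j y + Matrix.single i j (x * y) :
        Matrix (Fin 3) (Fin 3) B) := by
    rw [mul_add, mul_one, add_mul, one_mul, Matrix.single_mul_single_same, neg_mul_neg,
      ← Matrix.single_neg, ← Matrix.single_neg]
    abel
  rw [h1, h2]
  simp only [mul_add, mul_sub, add_mul, mul_one, one_mul, Matrix.single_mul_single_same,
    ss_ne hij.symm, ss_ne hki, ss_ne hkj.symm]
  abel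

theorem transv_mem (G Y : Set B) (hG : ∀ (c : F), ∀ g ∈ G, c • g ∈ G) (i j : Fin 3)
    (hij : i ≠ j) (w : B)
    (hw : w ∈ NonUnitalAlgebra.adjoin F G) : InGam F G Y (1 + Matrix.single i j w) := by
  have key : ∀ c : F, ∀ i j : Fin 3, i ≠ j → InGam F G Y (1 + Matrix.single i j (c • w)) := by
    induction hw using NonUnitalAlgebra.adjoin_induction with
    | mem x hx =>
      intro c i j hij
      exact e1_gen hij (Or.inl (Or.inr ⟨i, j, hij, c • x, hG c x hx, rfl⟩))
    | add x y _ _ hx hy =>
      intro c i j hij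
      rw [smul_add, ← e1_mul hij]
      exact (hx c i j hij).mul (hy c i j hij)
    | zero =>
      intro c i j _
      rw [smul_zero, Matrix.single_zero, add_zero]
      exact InGam.one G Y
    | mul x y _ _ hx hy =>
      intro c i j hij
      obtain ⟨k, hki, hkj⟩ : ∃ k : Fin 3, k ≠ i ∧ k ≠ j := by
        revert i j; decide
      rw [← smul_mul_assoc, ← e1_comm hij hki hkj]
      have h1 := hx c i k hki.symm
      have h2 := hy 1 k j hkj
      rw [one_smul] at h2
      exact (h1.mul h2).mul ((h1.inv (e1_inv hki.symm (c • x))).mul (h2.inv (e1_inv hkj y)))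
    | smul c' x _ hx =>
      intro c i j hij
      rw [smul_smul]
      exact hx (c * c') i j hij
  have h := key 1 i j hij
  rwa [one_smul] at h

theorem transv_mem_upper (G Y : Set B) (hG : ∀ (c : F), ∀ g ∈ G, c • g ∈ G) (i j : Fin 3)
    (hij : i < j) (c : F) (w : B)
    (hw : w ∈ NonUnitalAlgebra.adjoin F G) :
    InGam F G Y (1 + Matrix.single i j (algebraMap F B c + w)) := by
  rw [← e1_mul hij.ne]
  exact InGam.mul (e1_gen hij.ne (Or.inl (Or.inl ⟨i, j, hij, c, rfl⟩)))
    (transv_mem G Y hG i j hij.ne w hw)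

/-- inverses of elements of `1 + J` -/
theorem inv_mem_one_add {J : NonUnitalSubalgebra F B} {x v : B} (hx : x ∈ J)
    (hnil : IsNilpotent x) (hv : v * (1 + x) = 1) : ∃ y ∈ J, v = 1 + y := by
  obtain ⟨n, hn⟩ := hnil
  -- `v * x^k ∈ J` for all large `k`, hence (downwards) for all `k ≥ 1`
  have hpow : ∀ k : ℕ, x ^ (k + 1) ∈ J := by
    intro k
    induction k with
    | zero => simpa using hx
    | succ k ih => rw [pow_succ]; exact mul_mem ih hx
  have hvx : ∀ k : ℕ, v * x ^ k = x ^ k - v * x ^ (k + 1) := by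
    intro k
    have : v * (1 + x) * x ^ k = x ^ k := by rw [hv, one_mul]
    rw [mul_add, mul_one, add_mul, mul_assoc, ← pow_succ'] at this
    exact eq_sub_of_add_eq this
  have key : ∀ m : ℕ, ∀ k : ℕ, n ≤ k + 1 + m → v * x ^ (k + 1) ∈ J := by
    intro m
    induction m with
    | zero =>
      intro k hk
      rw [add_zero] at hk
      rw [pow_eq_zero_of_le hk hn, mul_zero]
      exact zero_mem J
    | succ m ih =>
      intro k hk
      rw [hvx]
      exact sub_mem (hpow k) (ih (k + 1) (by omega))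
  refine ⟨-(v * x), neg_mem (by simpa using key n 0 (by omega)), ?_⟩
  have h := hvx 0
  rw [pow_zero, mul_one, zero_add, pow_one] at h
  rw [← sub_eq_add_neg]
  exact h

/-- Whitehead: `diag (1 + a b, (1 + b a)⁻¹)` -/
theorem whitehead_mem (G Y : Set B) (hG : ∀ (c : F), ∀ g ∈ G, c • g ∈ G) (i j : Fin 3) (hij : i < j) (c : F) (a b v : B)
    (ha : a ∈ NonUnitalAlgebra.adjoin F G) (hb : b ∈ NonUnitalAlgebra.adjoin F G)
    (hnil : ∀ x ∈ NonUnitalAlgebra.adjoin F G, IsNilpotent x)
    (hv : v * (1 + b * (algebraMap F B c + a)) = 1)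
    (hv' : (1 + b * (algebraMap F B c + a)) * v = 1) :
    InGam F G Y (diag2 i j (1 + (algebraMap F B c + a) * b) v) := by
  have hba : b * (algebraMap F B c + a) ∈ NonUnitalAlgebra.adjoin F G := by
    rw [mul_add, ← Algebra.commutes, ← Algebra.smul_def]
    exact add_mem (SMulMemClass.smul_mem c hb) (mul_mem hb ha)
  obtain ⟨y, hy, hvy⟩ := inv_mem_one_add hba (hnil _ hba) hv
  have hav : -((algebraMap F B c + a) * v) = algebraMap F B (-c) +
      -(c • y + (a + a * y)) := by
    rw [hvy, map_neg, Algebra.smul_def]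
    noncomm_ring
  have hvb : -(v * b) ∈ NonUnitalAlgebra.adjoin F G := by
    rw [hvy, add_mul, one_mul]
    exact neg_mem (add_mem hb (mul_mem hy hb))
  have h1 : InGam F G Y (1 + Matrix.single j i (-(v * b))) := transv_mem G Y hG j i hij.ne' _ hvb
  have h2 : InGam F G Y (1 + Matrix.single i j (algebraMap F B c + a)) :=
    transv_mem_upper G Y hG i j hij c a ha
  have h3 : InGam F G Y (1 + Matrix.single j i b) := transv_mem G Y hG j i hij.ne' _ hb
  have h4 : InGam F G Y (1 + Matrix.single i j (-((algebraMap F B c + a) * v))) := by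
    rw [hav]
    exact transv_mem_upper G Y hG i j hij _ _
      (neg_mem (add_mem (SMulMemClass.smul_mem c hy) (add_mem ha (mul_mem ha hy))))
  set a' := algebraMap F B c + a with ha'
  clear_value a'
  have hd : diag2 i j (1 + a' * b) v =
      1 + Matrix.single i i (a' * b) + Matrix.single j j (v - 1) := by
    ext k l
    unfold diag2
    by_cases hkl : k = l
    · subst hkl
      rw [Matrix.diagonal_apply_eq, Matrix.add_apply, Matrix.add_apply, Matrix.one_apply_eq]
      by_cases hki : k = i
      · subst hki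
        rw [if_pos rfl, Matrix.single_apply_same, Matrix.single_apply_of_ne _ _ _ _ _
          (by rintro ⟨h, _⟩; exact hij.ne h.symm), add_zero]
      · rw [if_neg hki, Matrix.single_apply_of_ne _ _ _ _ _ (by rintro ⟨h, _⟩; exact hki h.symm)]
        by_cases hkj : k = j
        · subst hkj
          rw [if_pos rfl, Matrix.single_apply_same]
          abel
        · rw [if_neg hkj, Matrix.single_apply_of_ne _ _ _ _ _
            (by rintro ⟨h, _⟩; exact hkj h.symm)]
          abel
    · rw [Matrix.diagonal_apply_ne _ hkl, Matrix.add_apply, Matrix.add_apply,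
        Matrix.one_apply_ne hkl, Matrix.single_apply_of_ne _ _ _ _ _
          (by rintro ⟨h, h'⟩; exact hkl (h.symm.trans h')), Matrix.single_apply_of_ne _ _ _ _ _
          (by rintro ⟨h, h'⟩; exact hkl (h.symm.trans h')), add_zero, add_zero]
  have e1 : (1 + Matrix.single i j a') * (1 + Matrix.single j i b) =
      (1 + Matrix.single i j a' + Matrix.single j i b + Matrix.single i i (a' * b) :
        Matrix (Fin 3) (Fin 3) B) := by
    rw [mul_add, mul_one, add_mul, one_mul, Matrix.single_mul_single_same]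
    abel
  have hbav : b * a' * v = 1 - v := by
    rw [add_mul, one_mul] at hv'
    rw [← hv']
    abel
  have hvba : v * b * a' = 1 - v := by
    rw [mul_add, mul_one] at hv
    rw [← hv, mul_assoc]
    abel
  have e2 : (1 + Matrix.single i j a' + Matrix.single j i b + Matrix.single i i (a' * b)) *
      (1 + Matrix.single i j (-(a' * v))) =
      (1 + Matrix.single j i b + Matrix.single i i (a' * b) + Matrix.single j j (v - 1) :
        Matrix (Fin 3) (Fin 3) B) := by
    rw [mul_add, mul_one, add_mul, add_mul, add_mul, one_mul, Matrix.single_mul_single_same,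
      Matrix.single_mul_single_same, ss_ne hij.ne']
    have h5 : b * -(a' * v) = v - 1 := by
      rw [mul_neg, ← mul_assoc, hbav]; abel
    have h6 : a' * b * -(a' * v) = -a' + a' * v := by
      rw [mul_neg, ← mul_assoc, mul_assoc a' b a', mul_assoc, hbav, mul_sub, mul_one]; abel
    rw [h5, h6, Matrix.single_add, ← Matrix.single_neg, ← Matrix.single_neg]
    abel
  have e3 : (1 + Matrix.single j i (-(v * b))) *
      (1 + Matrix.single j i b + Matrix.single i i (a' * b) + Matrix.single j j (v - 1)) =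
      (1 + Matrix.single i i (a' * b) + Matrix.single j j (v - 1) :
        Matrix (Fin 3) (Fin 3) B) := by
    rw [add_mul, one_mul, mul_add, mul_add, mul_add, mul_one, Matrix.single_mul_single_same,
      ss_ne hij.ne, ss_ne hij.ne]
    have h6 : -(v * b) * (a' * b) = -b + v * b := by
      rw [neg_mul, ← mul_assoc, hvba, sub_mul, one_mul]; abel
    rw [h6, Matrix.single_add, ← Matrix.single_neg, ← Matrix.single_neg]
    abel
  rw [hd, ← e3, ← e2, ← e1]
  exact h1.mul ((h2.mul h3).mul h4)

/-- `1 + y` at place `0` -/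
theorem y_mem (G Y : Set B) (y : B) (hy : y ∈ Y) (hnil : IsNilpotent y) :
    InGam F G Y (1 + Matrix.single 0 0 y) := by
  have h1 : IsNilpotent (Matrix.single 0 0 y : Matrix (Fin 3) (Fin 3) B) := by
    obtain ⟨n, hn⟩ := hnil
    have h : ∀ n : ℕ, (Matrix.single 0 0 y : Matrix (Fin 3) (Fin 3) B) ^ (n + 1) =
        Matrix.single 0 0 (y ^ (n + 1)) := by
      intro n
      induction n with
      | zero => simp
      | succ n ih => rw [pow_succ, ih, Matrix.single_mul_single_same, ← pow_succ]
    refine ⟨n + 1, ?_⟩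
    rw [h, pow_succ, hn, zero_mul, Matrix.single_zero]
  obtain ⟨u, hu⟩ := h1.isUnit_one_add
  exact ⟨u, Subgroup.subset_closure ⟨_, Or.inr ⟨y, hy, rfl⟩, hu⟩, hu⟩

end Pool.Agent.NilAdjF
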