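import Pool.Agent.Lib.MP_1fb0bc_al.Ins.Defs

set_option autoImplicit false

open Polynomial

namespace Pool.Agent.NilAdjF

variable {F : Type} [Field F]

variable {d : ℕ → ℕ} {L : LevelData F d} {B : Type*} [Ring B] [Algebra F B]
  {A : Type*} [Ring A] [Algebra F A]

theorem theta_eq (H : Hier L B) (φ : A →ₐ[F] B) (k : ℕ) (m : Bool → Bool → Fin (d k) → A) :
    H.theta φ k m = H.evPart φ k m + H.odPart φ k m := by
  unfold Hier.theta Hier.evPart Hier.odPart
  rw [← Finset.sum_add_distrib]
  refine Finset.sum_congr rfl fun p _ => ?_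
  rw [Fintype.sum_bool, add_comm]

private theorem swap_mul (H : Hier L B) (φ : A →ₐ[F] B) (k : ℕ)
    (hc : ∀ x p h a, Commute (φ x) (H.T k p h a)) (x y : A) (p p' h h' : Bool)
    (a b : Fin (d k)) :
    φ x * H.T k p h a * (φ y * H.T k p' h' b) = φ (x * y) * (H.T k p h a * H.T k p' h' b) := by
  rw [map_mul, mul_assoc, ← mul_assoc (H.T k p h a), ← (hc y p h a).eq]
  simp only [mul_assoc]

theorem ev_mul_ev (H : Hier L B) (φ : A →ₐ[F] B) (k : ℕ)
    (hc : ∀ x p h a, Commute (φ x) (H.T k p h a)) (m : Bool → Bool → Fin (d k) → A) :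
    H.evPart φ k m * H.evPart φ k m = 0 := by
  unfold Hier.evPart
  simp only [Finset.sum_mul_sum]
  refine Finset.sum_eq_zero fun p _ => Finset.sum_eq_zero fun p' _ =>
    Finset.sum_eq_zero fun a _ => Finset.sum_eq_zero fun b _ => ?_
  rw [swap_mul H φ k hc, H.ff, mul_zero]

theorem od_mul_od (H : Hier L B) (φ : A →ₐ[F] B) (k : ℕ)
    (hc : ∀ x p h a, Commute (φ x) (H.T k p h a)) (m : Bool → Bool → Fin (d k) → A) :
    H.odPart φ k m * H.odPart φ k m = 0 := by
  unfold Hier.odPart
  simp only [Finset.sum_mul_sum]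
  refine Finset.sum_eq_zero fun p _ => Finset.sum_eq_zero fun p' _ =>
    Finset.sum_eq_zero fun a _ => Finset.sum_eq_zero fun b _ => ?_
  rw [swap_mul H φ k hc, H.tt, mul_zero]

theorem ev_mul_od (H : Hier L B) (φ : A →ₐ[F] B) (k : ℕ)
    (hc : ∀ x p h a, Commute (φ x) (H.T k p h a)) (m : Bool → Bool → Fin (d k) → A) :
    H.evPart φ k m * H.odPart φ k m = H.theta φ (k + 1) (step (L.μ k) m) := by
  unfold Hier.evPart Hier.odPart Hier.theta step
  simp only [Finset.sum_mul_sum]
  have h1 : ∀ p p' : Bool, (∑ a, ∑ b, φ (m p false a) * H.T k p false a *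
      (φ (m p' true b) * H.T k p' true b)) =
      if p = p' then ∑ a, ∑ b, ∑ ε, ∑ c, L.μ k ε a b c •
        (φ (m p false a * m p true b) * H.T (k + 1) ε p c) else 0 := by
    intro p p'
    split_ifs with hp
    · subst hp
      refine Finset.sum_congr rfl fun a _ => Finset.sum_congr rfl fun b _ => ?_
      rw [swap_mul H φ k hc, H.mul, Finset.mul_sum]
      refine Finset.sum_congr rfl fun ε _ => ?_
      rw [Finset.mul_sum]
      refine Finset.sum_congr rfl fun c _ => ?_
      rw [mul_smul_comm]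
    · refine Finset.sum_eq_zero fun a _ => Finset.sum_eq_zero fun b _ => ?_
      rw [swap_mul H φ k hc, H.ft k p p' a b hp, mul_zero]
  simp only [h1, Finset.sum_ite_eq, Finset.mem_univ, if_true]
  -- now both sides are sums over p, ε, c, a, b
  have h2 : ∀ (ε p : Bool) (c : Fin (d (k + 1))),
      φ (∑ a, ∑ b, L.μ k ε a b c • (m p false a * m p true b)) * H.T (k + 1) ε p c =
      ∑ a, ∑ b, L.μ k ε a b c • (φ (m p false a * m p true b) * H.T (k + 1) ε p c) := by
    intro ε p c
    rw [map_sum, Finset.sum_mul]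
    refine Finset.sum_congr rfl fun a _ => ?_
    rw [map_sum, Finset.sum_mul]
    refine Finset.sum_congr rfl fun b _ => ?_
    rw [map_smul, smul_mul_assoc]
  simp only [h2]
  conv_rhs => rw [Finset.sum_comm]
  refine Finset.sum_congr rfl fun p _ => ?_
  -- ∑ a, ∑ b, ∑ ε, ∑ c  =  ∑ ε, ∑ c, ∑ a, ∑ b
  have h3 : ∀ f : Fin (d k) → Fin (d k) → Bool → Fin (d (k + 1)) → B,
      ∑ a, ∑ b, ∑ ε, ∑ c, f a b ε c = ∑ ε, ∑ c, ∑ a, ∑ b, f a b ε c := by
    intro f
    calc ∑ a, ∑ b, ∑ ε, ∑ c, f a b ε c = ∑ a, ∑ ε, ∑ b, ∑ c, f a b ε c :=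
          Finset.sum_congr rfl fun a _ => Finset.sum_comm
      _ = ∑ ε, ∑ a, ∑ b, ∑ c, f a b ε c := Finset.sum_comm
      _ = ∑ ε, ∑ a, ∑ c, ∑ b, f a b ε c :=
          Finset.sum_congr rfl fun ε _ => Finset.sum_congr rfl fun a _ => Finset.sum_comm
      _ = ∑ ε, ∑ c, ∑ a, ∑ b, f a b ε c :=
          Finset.sum_congr rfl fun ε _ => Finset.sum_comm
  exact h3 fun a b ε c => L.μ k ε a b c • (φ (m p false a * m p true b) * H.T (k + 1) ε p c)

theorem theta_zero (H : Hier L B) (φ : A →ₐ[F] B) (k : ℕ) :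
    H.theta φ k (0 : Bool → Bool → Fin (d k) → A) = 0 := by
  unfold Hier.theta
  simp

/-- `(E + O) ^ (2 n + 1) = 0` when `E² = O² = 0` and `(E O) ^ n = 0`. -/
theorem nilp_add {R : Type*} [Ring R] {E O : R} (hE : E * E = 0) (hO : O * O = 0)
    (h : IsNilpotent (E * O)) : IsNilpotent (E + O) := by
  obtain ⟨n, hn⟩ := h
  -- (E + O) ^ 2 = E O + O E,  powers
  have key : ∀ r : ℕ, (E + O) ^ (2 * r + 1) = (E * O) ^ r * E + O * (E * O) ^ r := by
    intro r
    induction r with
    | zero => simp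
    | succ r ih =>
      have : 2 * (r + 1) + 1 = (2 * r + 1) + 2 := by ring
      rw [this, pow_add, ih]
      have h2 : (E + O) ^ 2 = E * O + O * E := by
        rw [pow_two, add_mul, mul_add, mul_add, hE, hO, zero_add, add_zero]
      rw [h2]
      have h3 : (E * O) ^ r * E * (E * O) = 0 := by
        rw [mul_assoc, ← mul_assoc E E O, hE, zero_mul, mul_zero]
      have h4 : (E * O) ^ r * E * (O * E) = (E * O) ^ (r + 1) * E := by
        rw [pow_succ]; simp only [mul_assoc]
      have h5 : O * (E * O) ^ r * (E * O) = O * (E * O) ^ (r + 1) := by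
        rw [pow_succ, mul_assoc]
      have h6 : O * (E * O) ^ r * (O * E) = 0 := by
        rcases r with _ | r
        · rw [pow_zero, mul_one, ← mul_assoc, hO, zero_mul]
        · rw [pow_succ]
          have : O * ((E * O) ^ r * (E * O)) * (O * E) = O * (E * O) ^ r * E * (O * O) * E := by
            simp only [mul_assoc]
          rw [this, hO, mul_zero, zero_mul]
      rw [add_mul, mul_add, mul_add, h3, h4, h5, h6, zero_add, add_zero]
  exact ⟨2 * n + 1, by rw [key, hn, zero_mul, mul_zero, add_zero]⟩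

theorem theta_nilpotent (H : Hier L B) (φ : A →ₐ[F] B)
    (hc : ∀ x k p h a, Commute (φ x) (H.T k p h a)) (m : Bool → Bool → Fin (d 0) → A)
    (k : ℕ) (hk : evol L m k = 0) : IsNilpotent (H.theta φ 0 m) := by
  have key : ∀ j, j ≤ k → IsNilpotent (H.theta φ (k - j) (evol L m (k - j))) := by
    intro j
    induction j with
    | zero =>
      intro _
      rw [Nat.sub_zero, hk, theta_zero]
      exact IsNilpotent.zero
    | succ j ih =>
      intro hj
      have h1 := ih (by omega)
      obtain ⟨i, hi⟩ : ∃ i, k - j = i + 1 := ⟨k - j - 1, by omega⟩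
      have h2 : k - (j + 1) = i := by omega
      rw [h2]
      rw [hi] at h1
      rw [theta_eq]
      refine nilp_add (ev_mul_ev H φ i (fun x p h a => hc x i p h a) _)
        (od_mul_od H φ i (fun x p h a => hc x i p h a) _) ?_
      rw [ev_mul_od H φ i (fun x p h a => hc x i p h a)]
      exact h1
  have := key k le_rfl
  rw [Nat.sub_self] at this
  exact this

theorem evol_map {A' : Type*} [Ring A'] [Algebra F A'] (ψ : A →ₐ[F] A')
    (m : Bool → Bool → Fin (d 0) → A) (k : ℕ) (p h : Bool) (a : Fin (d k)) :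
    evol L (fun p h a => ψ (m p h a)) k p h a = ψ (evol L m k p h a) := by
  induction k generalizing p h with
  | zero => rfl
  | succ k ih =>
    simp only [evol, step, ih, map_sum, map_smul, map_mul]

theorem KillsAlg.of_injective {A' : Type*} [Ring A'] [Algebra F A'] (ψ : A →ₐ[F] A')
    (hψ : Function.Injective ψ) (h : KillsAlg L A') : KillsAlg L A := by
  intro m
  obtain ⟨k, hk⟩ := h (fun p h a => ψ (m p h a))
  refine ⟨k, ?_⟩
  funext p h a
  have h1 := evol_map (L := L) ψ m k p h a
  rw [hk] at h1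
  apply hψ
  rw [← h1]
  simp

theorem kills_matrix_poly (h : ∀ N : ℕ, KillsAlg L (Matrix (Fin N) (Fin N) F[X]))
    (ι : Type) [Fintype ι] [DecidableEq ι] : KillsAlg L (Matrix ι ι F[X]) :=
  KillsAlg.of_injective
    (Matrix.reindexAlgEquiv F F[X] (Fintype.equivFin ι)).toAlgHom
    (Matrix.reindexAlgEquiv F F[X] (Fintype.equivFin ι)).injective (h (Fintype.card ι))

theorem kills_matrix (h : ∀ N : ℕ, KillsAlg L (Matrix (Fin N) (Fin N) F[X]))
    (ι : Type) [Fintype ι] [DecidableEq ι] : KillsAlg L (Matrix ι ι F) := by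
  refine KillsAlg.of_injective (Polynomial.CAlgHom (R := F) (A := F)).mapMatrix ?_
    (kills_matrix_poly h ι)
  intro M N hMN
  ext i j
  have := congrFun (congrFun hMN i) j
  exact Polynomial.C_injective this

theorem T_mem_J (H : Hier L B) (k : ℕ) (p h : Bool) (a : Fin (d k)) : H.T k p h a ∈ H.J := by
  induction k generalizing p h with
  | zero =>
    exact NonUnitalAlgebra.subset_adjoin F ⟨(p, h, a), rfl⟩
  | succ k ih =>
    -- T (k+1) p h a = ∑ w a' b' • T k h false a' * T k h true b'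
    obtain ⟨w, hw⟩ := L.surj k (fun ε c => if ε = p ∧ c = a then 1 else 0)
    have h1 : H.T (k + 1) p h a =
        ∑ a', ∑ b', w a' b' • (H.T k h false a' * H.T k h true b') := by
      have h2 : ∀ a' b', w a' b' • (H.T k h false a' * H.T k h true b') =
          ∑ ε, ∑ c, (w a' b' * L.μ k ε a' b' c) • H.T (k + 1) ε h c := by
        intro a' b'
        rw [H.mul, Finset.smul_sum]
        refine Finset.sum_congr rfl fun ε _ => ?_
        rw [Finset.smul_sum]
        refine Finset.sum_congr rfl fun c _ => ?_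
        rw [smul_smul]
      simp only [h2]
      have h3 : ∀ f : Fin (d k) → Fin (d k) → Bool → Fin (d (k + 1)) → B,
          ∑ a, ∑ b, ∑ ε, ∑ c, f a b ε c = ∑ ε, ∑ c, ∑ a, ∑ b, f a b ε c := by
        intro f
        calc ∑ a, ∑ b, ∑ ε, ∑ c, f a b ε c = ∑ a, ∑ ε, ∑ b, ∑ c, f a b ε c :=
              Finset.sum_congr rfl fun a _ => Finset.sum_comm
          _ = ∑ ε, ∑ a, ∑ b, ∑ c, f a b ε c := Finset.sum_comm
          _ = ∑ ε, ∑ a, ∑ c, ∑ b, f a b ε c :=
              Finset.sum_congr rfl fun ε _ => Finset.sum_congr rfl fun a _ => Finset.sum_comm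
          _ = ∑ ε, ∑ c, ∑ a, ∑ b, f a b ε c :=
              Finset.sum_congr rfl fun ε _ => Finset.sum_comm
      rw [h3 fun a' b' ε c => (w a' b' * L.μ k ε a' b' c) • H.T (k + 1) ε h c]
      have h4 : ∀ ε c, ∑ a', ∑ b', (w a' b' * L.μ k ε a' b' c) • H.T (k + 1) ε h c =
          (if ε = p ∧ c = a then (1 : F) else 0) • H.T (k + 1) ε h c := by
        intro ε c
        rw [← hw ε c, Finset.sum_smul]
        refine Finset.sum_congr rfl fun a' _ => ?_
        rw [Finset.sum_smul]
      simp only [h4]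
      rw [Finset.sum_eq_single p, Finset.sum_eq_single a]
      · simp
      · intro c _ hc; simp [hc]
      · intro h; exact absurd (Finset.mem_univ _) h
      · intro ε _ hε
        refine Finset.sum_eq_zero fun c _ => ?_
        simp [hε]
      · intro h; exact absurd (Finset.mem_univ _) h
    rw [h1]
    exact sum_mem fun a' _ => sum_mem fun b' _ =>
      SMulMemClass.smul_mem _ (mul_mem (ih h false a') (ih h true b'))

theorem X_le_J (H : Hier L B) (k : ℕ) (h : Bool) {x : B} (hx : x ∈ H.X k h) : x ∈ H.J := by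
  have : H.X k h ≤ H.J.toSubmodule := by
    refine Submodule.span_le.2 ?_
    rintro _ ⟨⟨p, a⟩, rfl⟩
    exact T_mem_J H k p h a
  exact this hx

theorem X_mul_X (H : Hier L B) (k : ℕ) (h : Bool) {x y : B} (hx : x ∈ H.X k h)
    (hy : y ∈ H.X k h) : x * y = 0 := by
  unfold Hier.X at hx hy
  induction hx using Submodule.span_induction with
  | mem x hx =>
    obtain ⟨⟨p, a⟩, rfl⟩ := hx
    induction hy using Submodule.span_induction with
    | mem y hy =>
      obtain ⟨⟨p', b⟩, rfl⟩ := hy
      cases h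
      · exact H.ff k p p' a b
      · exact H.tt k p p' a b
    | zero => simp
    | add u v _ _ h1 h2 => rw [mul_add, h1, h2, add_zero]
    | smul c u _ h1 => rw [mul_smul_comm, h1, smul_zero]
  | zero => simp
  | add u v _ _ h1 h2 => rw [add_mul, h1, h2, add_zero]
  | smul c u _ h1 => rw [smul_mul_assoc, h1, smul_zero]

end Pool.Agent.NilAdjF
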