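import Pool.Agent.Lib.MP_1fb0bc_al.Ins.Defs

set_option autoImplicit false

namespace Pool.Agent.NilAdjF

variable {F : Type} [Field F]

/-- the tower `J_0 = V`, `J_{n+1} = J_n + J_n J_n` -/
private def linTower {C : Type} [Ring C] [Algebra F C] (V : Submodule F C) : ℕ → Submodule F C
  | 0 => V
  | n + 1 => linTower V n ⊔ linTower V n * linTower V n

private theorem linTower_mono {C : Type} [Ring C] [Algebra F C] (V : Submodule F C) :
    Monotone (linTower V) :=
  monotone_nat_of_le_succ fun _ => le_sup_left

private theorem linTower_le {C : Type} [Ring C] [Algebra F C] (V : Submodule F C) (n : ℕ) :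
    ∀ x ∈ linTower V n, x ∈ NonUnitalAlgebra.adjoin F (V : Set C) := by
  induction n with
  | zero => exact fun x hx => NonUnitalAlgebra.subset_adjoin F hx
  | succ n ih =>
    intro x hx
    obtain ⟨y, hy, z, hz, rfl⟩ := Submodule.mem_sup.1 hx
    refine add_mem (ih y hy) ?_
    refine Submodule.mul_induction_on hz (fun a ha b hb => mul_mem (ih a ha) (ih b hb)) ?_
    exact fun a b ha hb => add_mem ha hb

private theorem mem_linTower {C : Type} [Ring C] [Algebra F C] (V : Submodule F C) (x : C)
    (hx : x ∈ NonUnitalAlgebra.adjoin F (V : Set C)) : ∃ n, x ∈ linTower V n := by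
  induction hx using NonUnitalAlgebra.adjoin_induction with
  | mem x hx => exact ⟨0, hx⟩
  | add x y _ _ hx hy =>
    obtain ⟨n, hn⟩ := hx
    obtain ⟨m, hm⟩ := hy
    exact ⟨max n m, add_mem (linTower_mono V (le_max_left n m) hn)
      (linTower_mono V (le_max_right n m) hm)⟩
  | zero => exact ⟨0, zero_mem _⟩
  | mul x y _ _ hx hy =>
    obtain ⟨n, hn⟩ := hx
    obtain ⟨m, hm⟩ := hy
    exact ⟨max n m + 1, (le_sup_right : linTower V (max n m) * linTower V (max n m) ≤ _)
      (Submodule.mul_mem_mul (linTower_mono V (le_max_left n m) hn)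
      (linTower_mono V (le_max_right n m) hm))⟩
  | smul r x _ hx =>
    obtain ⟨n, hn⟩ := hx
    exact ⟨n, Submodule.smul_mem _ r hn⟩

/-- decomposable matrices over `J_{n+1}` -/
private def LinDec {C : Type} [Ring C] [Algebra F C] (S : Submodule F C) {ι : Type} [Fintype ι]
    (M : Matrix ι ι C) : Prop :=
  ∃ (P₀ : Matrix ι ι C) (l : List (Matrix ι ι C × Matrix ι ι C)), (∀ i j, P₀ i j ∈ S) ∧
    (∀ p ∈ l, (∀ i j, p.1 i j ∈ S) ∧ ∀ i j, p.2 i j ∈ S) ∧
    M = P₀ + (l.map fun p => p.1 * p.2).sum

private theorem LinDec.zero {C : Type} [Ring C] [Algebra F C] (S : Submodule F C) {ι : Type}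
    [Fintype ι] : LinDec S (0 : Matrix ι ι C) :=
  ⟨0, [], fun _ _ => zero_mem _, by simp, by simp⟩

private theorem LinDec.add {C : Type} [Ring C] [Algebra F C] {S : Submodule F C} {ι : Type}
    [Fintype ι] {M N : Matrix ι ι C} (hM : LinDec S M) (hN : LinDec S N) : LinDec S (M + N) := by
  obtain ⟨P, l, h1, h2, rfl⟩ := hM
  obtain ⟨P', l', h1', h2', rfl⟩ := hN
  refine ⟨P + P', l ++ l', fun i j => add_mem (h1 i j) (h1' i j), ?_, ?_⟩
  · intro p hp
    rcases List.mem_append.1 hp with h | h
    · exact h2 p h
    · exact h2' p h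
  · rw [List.map_append, List.sum_append]
    abel

private theorem LinDec.sum {C : Type} [Ring C] [Algebra F C] {S : Submodule F C} {ι : Type}
    [Fintype ι] {α : Type} (s : Finset α) (f : α → Matrix ι ι C)
    (h : ∀ a ∈ s, LinDec S (f a)) : LinDec S (∑ a ∈ s, f a) := by
  classical
  induction s using Finset.induction_on with
  | empty => simpa using LinDec.zero S
  | insert a s ha ih =>
    rw [Finset.sum_insert ha]
    exact (h a (Finset.mem_insert_self a s)).add
      (ih fun b hb => h b (Finset.mem_insert_of_mem hb))

private theorem single_mem {C : Type} [Ring C] [Algebra F C] {S : Submodule F C} {ι : Type}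
    [DecidableEq ι] {x : C} (hx : x ∈ S) (i j i' j' : ι) : Matrix.single i j x i' j' ∈ S := by
  rw [Matrix.single_apply]
  split_ifs
  · exact hx
  · exact zero_mem _

private theorem linDec_single {C : Type} [Ring C] [Algebra F C] {S : Submodule F C} {ι : Type}
    [Fintype ι] [DecidableEq ι] (i j : ι) {x : C} (hx : x ∈ S ⊔ S * S) :
    LinDec S (Matrix.single i j x) := by
  obtain ⟨y, hy, z, hz, rfl⟩ := Submodule.mem_sup.1 hx
  rw [Matrix.single_add]
  refine LinDec.add ⟨Matrix.single i j y, [], single_mem hy i j, by simp, by simp⟩ ?_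
  refine Submodule.mul_induction_on (C := fun z => LinDec S (Matrix.single i j z)) hz ?_ ?_
  · intro a ha b hb
    refine ⟨0, [(Matrix.single i j a, Matrix.single j j b)], fun _ _ => zero_mem _, ?_, ?_⟩
    · intro p hp
      rw [List.mem_singleton] at hp
      subst hp
      exact ⟨single_mem ha i j, single_mem hb j j⟩
    · simp
  · intro a b ha hb
    rw [Matrix.single_add]
    exact ha.add hb

private theorem linDec_of {C : Type} [Ring C] [Algebra F C] {S : Submodule F C} {ι : Type}
    [Fintype ι] [DecidableEq ι] (P : Matrix ι ι C) (hP : ∀ i j, P i j ∈ S ⊔ S * S) :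
    LinDec S P := by
  rw [Matrix.matrix_eq_sum_single P]
  exact LinDec.sum _ _ fun i _ => LinDec.sum _ _ fun j _ => linDec_single i j (hP i j)

private theorem fromBlocks_sum {C : Type} [Ring C] {ι : Type} [Fintype ι] [DecidableEq ι]
    (l : List (Matrix ι ι C × Matrix ι ι C)) :
    ((l.map fun p => ((Matrix.fromBlocks 0 0 0 p.1 : Matrix (ι ⊕ ι) (ι ⊕ ι) C),
      (Matrix.fromBlocks 0 0 0 p.2 : Matrix (ι ⊕ ι) (ι ⊕ ι) C))).map fun p => p.1 * p.2).sum =
      Matrix.fromBlocks 0 0 0 (l.map fun p => p.1 * p.2).sum := by
  induction l with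
  | nil => simp
  | cons p l ih =>
    rw [List.map_cons, List.map_cons, List.sum_cons, ih, List.map_cons, List.sum_cons,
      Matrix.fromBlocks_multiply, Matrix.fromBlocks_add]
    simp

/-- linearisation principle -/
theorem lin_induction {C : Type} [Ring C] [Algebra F C] (V : Submodule F C)
    (Φ : ∀ (ι : Type) [Fintype ι] [DecidableEq ι], Matrix ι ι C → Prop)
    (h1 : ∀ (ι : Type) [Fintype ι] [DecidableEq ι] (M : Matrix ι ι C),
      (∀ i j, M i j ∈ V) → Φ ι M)
    (h2 : ∀ (ι : Type) [Fintype ι] [DecidableEq ι] (A D Q : Matrix ι ι C),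
      (∀ i j, A i j ∈ NonUnitalAlgebra.adjoin F (V : Set C)) →
      (∀ i j, D i j ∈ NonUnitalAlgebra.adjoin F (V : Set C)) →
      (∀ i j, Q i j ∈ NonUnitalAlgebra.adjoin F (V : Set C)) →
      Φ (ι ⊕ ι) (Matrix.fromBlocks 0 D A Q) → Φ ι (Q + A * D))
    (ι : Type) [Fintype ι] [DecidableEq ι] (P : Matrix ι ι C)
    (hP : ∀ i j, P i j ∈ NonUnitalAlgebra.adjoin F (V : Set C)) : Φ ι P := by
  -- matrices over `J_n`
  have key : ∀ n : ℕ, ∀ (ι : Type) [Fintype ι] [DecidableEq ι] (P : Matrix ι ι C),
      (∀ i j, P i j ∈ linTower V n) → Φ ι P := by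
    intro n
    induction n with
    | zero => exact fun ι _ _ P hP => h1 ι P hP
    | succ n ih =>
      have step : ∀ k : ℕ, ∀ (ι : Type) [Fintype ι] [DecidableEq ι] (P₀ : Matrix ι ι C)
          (l : List (Matrix ι ι C × Matrix ι ι C)), l.length = k →
          (∀ i j, P₀ i j ∈ linTower V n) →
          (∀ p ∈ l, (∀ i j, p.1 i j ∈ linTower V n) ∧ ∀ i j, p.2 i j ∈ linTower V n) →
          Φ ι (P₀ + (l.map fun p => p.1 * p.2).sum) := by
        intro k
        induction k with
        | zero =>
          intro ι _ _ P₀ l hl hP₀ _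
          have : l = [] := List.length_eq_zero_iff.1 hl
          subst this
          simpa using ih ι P₀ hP₀
        | succ k ihk =>
          intro ι _ _ P₀ l hl hP₀ hmem
          cases l with
          | nil => simp at hl
          | cons p l =>
            have hp := hmem p List.mem_cons_self
            have hl' : ∀ p ∈ l, (∀ i j, p.1 i j ∈ linTower V n) ∧
                ∀ i j, p.2 i j ∈ linTower V n := fun q hq => hmem q (List.mem_cons_of_mem _ hq)
            have hsum : ∀ l : List (Matrix ι ι C × Matrix ι ι C),
                (∀ p ∈ l, (∀ i j, p.1 i j ∈ linTower V n) ∧ ∀ i j, p.2 i j ∈ linTower V n) →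
                ∀ i j, (l.map fun p => p.1 * p.2).sum i j ∈
                  NonUnitalAlgebra.adjoin F (V : Set C) := by
              intro l
              induction l with
              | nil => intro _ i j; simp
              | cons q l ihl =>
                intro hq i j
                rw [List.map_cons, List.sum_cons, Matrix.add_apply, Matrix.mul_apply]
                refine add_mem (sum_mem fun t _ => mul_mem ?_ ?_)
                  (ihl (fun r hr => hq r (List.mem_cons_of_mem _ hr)) i j)
                · exact linTower_le V n _ ((hq q List.mem_cons_self).1 i t)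
                · exact linTower_le V n _ ((hq q List.mem_cons_self).2 t j)
            have hQ : ∀ i j, (P₀ + (l.map fun p => p.1 * p.2).sum) i j ∈
                NonUnitalAlgebra.adjoin F (V : Set C) := by
              intro i j
              rw [Matrix.add_apply]
              exact add_mem (linTower_le V n _ (hP₀ i j)) (hsum l hl' i j)
            have hmain := h2 ι p.1 p.2 (P₀ + (l.map fun p => p.1 * p.2).sum)
              (fun i j => linTower_le V n _ (hp.1 i j)) (fun i j => linTower_le V n _ (hp.2 i j)) hQ
            have hrw : P₀ + ((p :: l).map fun p => p.1 * p.2).sum =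
                P₀ + (l.map fun p => p.1 * p.2).sum + p.1 * p.2 := by
              rw [List.map_cons, List.sum_cons]; abel
            rw [hrw]
            apply hmain
            have hb : (Matrix.fromBlocks 0 p.2 p.1 (P₀ + (l.map fun p => p.1 * p.2).sum) :
                Matrix (ι ⊕ ι) (ι ⊕ ι) C) = Matrix.fromBlocks 0 p.2 p.1 P₀ +
                ((l.map fun p => ((Matrix.fromBlocks 0 0 0 p.1 : Matrix (ι ⊕ ι) (ι ⊕ ι) C),
                (Matrix.fromBlocks 0 0 0 p.2 : Matrix (ι ⊕ ι) (ι ⊕ ι) C))).map
                fun p => p.1 * p.2).sum := by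
              rw [fromBlocks_sum, Matrix.fromBlocks_add]
              simp
            rw [hb]
            apply ihk
            · simpa using hl
            · rintro (i | i) (j | j)
              · simp
              · simpa using hp.2 i j
              · simpa using hp.1 i j
              · simpa using hP₀ i j
            · intro q hq
              obtain ⟨r, hr, rfl⟩ := List.mem_map.1 hq
              refine ⟨?_, ?_⟩
              · rintro (i | i) (j | j)
                · simp
                · simp
                · simp
                · simpa using (hl' r hr).1 i j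
              · rintro (i | i) (j | j)
                · simp
                · simp
                · simp
                · simpa using (hl' r hr).2 i j
      intro ι _ _ P hP
      obtain ⟨P₀, l, ha, hb, rfl⟩ := linDec_of P hP
      exact step l.length ι P₀ l rfl ha hb
  -- all entries in a common level
  choose n hn using fun i j => mem_linTower V (P i j) (hP i j)
  refine key (Finset.univ.sup fun i => Finset.univ.sup fun j => n i j) ι P fun i j => ?_
  refine linTower_mono V ?_ (hn i j)
  exact (Finset.le_sup (f := fun j => n i j) (Finset.mem_univ j)).trans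
    (Finset.le_sup (f := fun i => Finset.univ.sup fun j => n i j) (Finset.mem_univ i))

end Pool.Agent.NilAdjF
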