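import Pool.Agent.Lib.MP_1fb0bc_al.Ins.Det
import Pool.Agent.Lib.MP_1fb0bc_al.Ins.NilJ

set_option autoImplicit false

open Polynomial

namespace Pool.Agent.NilAdjF

variable {F : Type} [Field F]

/-! ### determinant-like functions -/

theorem IsDet.one {B : Type*} [Ring B] {K : Type*} [CommGroup K] {J : Set B} {κ : B → K}
    (h : IsDet J κ) (h0 : (0 : B) ∈ J) : κ 1 = 1 := by
  have := h.mul 0 h0 0 h0
  rw [add_zero, mul_one] at this
  exact mul_left_cancel (a := κ 1) (by rw [mul_one]; exact this.symm)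

/-- `κ (1 + ∑ u_i v_i) = 1` when all `v_i u_j` vanish -/
theorem IsDet.sum_trivial {B : Type*} [Ring B] {K : Type*} [CommGroup K]
    {J : NonUnitalSubring B} {κ : B → K} (h : IsDet (J : Set B) κ) {α : Type*}
    (u v : α → B) (hu : ∀ i, u i ∈ J) (hv : ∀ i, v i ∈ J) (huv : ∀ i j, v i * u j = 0)
    (s : Finset α) : κ (1 + ∑ i ∈ s, u i * v i) = 1 := by
  classical
  induction s using Finset.induction_on with
  | empty => rw [Finset.sum_empty, add_zero]; exact h.one J.zero_mem
  | insert i s hi ih =>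
    have h1 : 1 + ∑ j ∈ insert i s, u j * v j =
        (1 + ∑ j ∈ s, u j * v j) * (1 + u i * v i) := by
      rw [Finset.sum_insert hi]
      have h2 : (∑ j ∈ s, u j * v j) * (u i * v i) = 0 := by
        rw [Finset.sum_mul]
        refine Finset.sum_eq_zero fun j _ => ?_
        rw [mul_assoc, ← mul_assoc (v j), huv, zero_mul, mul_zero]
      rw [mul_add, mul_one, add_mul, one_mul, h2]
      abel
    rw [h1, h.mul _ (sum_mem fun j _ => mul_mem (hu j) (hv j)) _ (mul_mem (hu i) (hv i)), ih,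
      one_mul, h.comm _ (hu i) _ (hv i), huv, add_zero]
    exact h.one J.zero_mem

section

variable {d : ℕ → ℕ} {L : LevelData F d} {B : Type} [Ring B] [Algebra F B]

theorem expand (H : Hier L B) (k : ℕ) (h : Bool) (z : Bool → Fin (d (k + 1)) → F) :
    ∃ w : Fin (d k) → Fin (d k) → F, ∑ ε, ∑ c, z ε c • H.T (k + 1) ε h c =
      ∑ x : Fin (d k) × Fin (d k), (w x.1 x.2 • H.T k h false x.1) * H.T k h true x.2 := by
  obtain ⟨w, hw⟩ := L.surj k z
  refine ⟨w, ?_⟩
  rw [Fintype.sum_prod_type]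
  have h2 : ∀ a' b', (w a' b' • H.T k h false a') * H.T k h true b' =
      ∑ ε, ∑ c, (w a' b' * L.μ k ε a' b' c) • H.T (k + 1) ε h c := by
    intro a' b'
    rw [smul_mul_assoc, H.mul, Finset.smul_sum]
    refine Finset.sum_congr rfl fun ε _ => ?_
    rw [Finset.smul_sum]
    refine Finset.sum_congr rfl fun c _ => ?_
    rw [smul_smul]
  simp only [h2]
  have h3 : ∀ f : Fin (d k) → Fin (d k) → Bool → Fin (d (k + 1)) → B,
      ∑ a, ∑ b, ∑ ε, ∑ c, f a b ε c = ∑ ε, ∑ c, ∑ a, ∑ b, f a b ε c := by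
    intro f
    calc ∑ a, ∑ b, ∑ ε, ∑ c, f a b ε c = ∑ a, ∑ ε, ∑ b, ∑ c, f a b ε c :=
          Finset.sum_congr rfl fun a _ => Finset.sum_comm
      _ = ∑ ε, ∑ a, ∑ b, ∑ c, f a b ε c := Finset.sum_comm
      _ = ∑ ε, ∑ a, ∑ c, ∑ b, f a b ε c :=
          Finset.sum_congr rfl fun ε _ => Finset.sum_congr rfl fun a _ => Finset.sum_comm
      _ = ∑ ε, ∑ c, ∑ a, ∑ b, f a b ε c :=
          Finset.sum_congr rfl fun ε _ => Finset.sum_comm
  rw [h3 fun a' b' ε c => (w a' b' * L.μ k ε a' b' c) • H.T (k + 1) ε h c]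
  refine Finset.sum_congr rfl fun ε _ => Finset.sum_congr rfl fun c _ => ?_
  rw [← hw ε c, Finset.sum_smul]
  refine Finset.sum_congr rfl fun a' _ => ?_
  rw [Finset.sum_smul]

/-- all letters of all levels have trivial `κ` -/
theorem kappa_X (H : Hier L B) {K : Type} [CommGroup K] (κ : B → K)
    (hκ : IsDet (H.J : Set B) κ) (h0 : ∀ h, ∀ x ∈ H.X 0 h, κ (1 + x) = 1) (k : ℕ) (h : Bool)
    (x : B) (hx : x ∈ H.X k h) : κ (1 + x) = 1 := by
  cases k with
  | zero => exact h0 h x hx
  | succ k =>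
    unfold Hier.X at hx
    rw [Submodule.mem_span_range_iff_exists_fun] at hx
    obtain ⟨z, rfl⟩ := hx
    have h1 : ∑ i : Bool × Fin (d (k + 1)), z i • H.T (k + 1) i.1 h i.2 =
        ∑ ε, ∑ c, z (ε, c) • H.T (k + 1) ε h c := by
      rw [Fintype.sum_prod_type]
    rw [h1]
    obtain ⟨w, hw⟩ := expand H k h (fun ε c => z (ε, c))
    rw [hw]
    exact IsDet.sum_trivial (J := H.J.toNonUnitalSubring) hκ
      (fun x : Fin (d k) × Fin (d k) => w x.1 x.2 • H.T k h false x.1)
      (fun x => H.T k h true x.2)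
      (fun x => (SMulMemClass.smul_mem _ (T_mem_J H k h false x.1) :
        w x.1 x.2 • H.T k h false x.1 ∈ H.J)) (fun x => T_mem_J H k h true x.2)
      (fun x y => by
        show H.T k h true x.2 * (w y.1 y.2 • H.T k h false y.1) = 0
        rw [mul_smul_comm, H.tf, smul_zero]) Finset.univ

/-- smallness of a function on matrices: trivial on `1 +` (letters of one level and half) -/
def Small (H : Hier L B) {K : Type} [CommGroup K] {ι : Type} [Fintype ι] [DecidableEq ι]
    (δ : Matrix ι ι B → K) : Prop :=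
  ∀ (k : ℕ) (h : Bool) (M : Matrix ι ι B), (∀ i j, M i j ∈ H.X k h) → δ (1 + M) = 1

theorem mat_mul_zero (H : Hier L B) {ι : Type} [Fintype ι] (k : ℕ) (h : Bool)
    (M N : Matrix ι ι B) (hM : ∀ i j, M i j ∈ H.X k h) (hN : ∀ i j, N i j ∈ H.X k h) :
    M * N = 0 := by
  ext i j
  rw [Matrix.mul_apply]
  exact Finset.sum_eq_zero fun l _ => X_mul_X H k h (hM i l) (hN l j)

omit [Algebra F B] in
theorem toBlocks_one_add {ι : Type} [Fintype ι] [DecidableEq ι] (M : Matrix (ι ⊕ ι) (ι ⊕ ι) B) :
    (1 + M).toBlocks₁₁ = 1 + M.toBlocks₁₁ ∧ (1 + M).toBlocks₁₂ = M.toBlocks₁₂ ∧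
      (1 + M).toBlocks₂₁ = M.toBlocks₂₁ ∧ (1 + M).toBlocks₂₂ = 1 + M.toBlocks₂₂ := by
  refine ⟨?_, ?_, ?_, ?_⟩
  · ext i j
    simp [Matrix.toBlocks₁₁, Matrix.one_apply]
  · ext i j
    simp [Matrix.toBlocks₁₂]
  · ext i j
    simp [Matrix.toBlocks₂₁]
  · ext i j
    simp [Matrix.toBlocks₂₂, Matrix.one_apply]

theorem small_dbl (H : Hier L B) {K : Type} [CommGroup K] {ι : Type} [Fintype ι] [DecidableEq ι]
    (δ : Matrix ι ι B → K) (hδ : Small H δ) : Small H (dbl δ) := by
  intro k h M hM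
  obtain ⟨e11, e12, e21, e22⟩ := toBlocks_one_add M
  have m11 : ∀ i j, M.toBlocks₁₁ i j ∈ H.X k h := fun i j => hM _ _
  have m12 : ∀ i j, M.toBlocks₁₂ i j ∈ H.X k h := fun i j => hM _ _
  have m21 : ∀ i j, M.toBlocks₂₁ i j ∈ H.X k h := fun i j => hM _ _
  have m22 : ∀ i j, M.toBlocks₂₂ i j ∈ H.X k h := fun i j => hM _ _
  have hinv : Ring.inverse (1 + M.toBlocks₁₁) = 1 - M.toBlocks₁₁ := by
    have hsq := mat_mul_zero H k h _ _ m11 m11
    refine Ring.inverse_unit ⟨1 + M.toBlocks₁₁, 1 - M.toBlocks₁₁, ?_, ?_⟩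
    · rw [mul_sub, mul_one, add_mul, one_mul, hsq]; abel
    · rw [sub_mul, one_mul, mul_add, mul_one, hsq]; abel
  unfold dbl
  rw [e11, e12, e21, e22, hinv]
  have hz : M.toBlocks₂₁ * (1 - M.toBlocks₁₁) * M.toBlocks₁₂ = 0 := by
    rw [mul_sub, mul_one, mat_mul_zero H k h _ _ m21 m11, sub_zero,
      mat_mul_zero H k h _ _ m21 m12]
  rw [hz, sub_zero, hδ k h _ m11, hδ k h _ m22, one_mul]

/-- scalar matrices -/
def scalarHom (F : Type) [Field F] (B : Type) [Ring B] [Algebra F B] (ι : Type) [Fintype ι] [DecidableEq ι] :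
    B →ₐ[F] Matrix ι ι B :=
  { Matrix.scalar ι with
    commutes' := fun c => by
      ext i j
      simp [Matrix.scalar_apply, Matrix.diagonal_apply, Matrix.algebraMap_matrix_apply] }

theorem scalarHom_apply {ι : Type} [Fintype ι] [DecidableEq ι] (b : B) :
    scalarHom F B ι b = Matrix.diagonal fun _ => b := rfl

/-- the coefficient map -/
def coefHom (F : Type) [Field F] (B : Type) [Ring B] [Algebra F B] (ι : Type) [Fintype ι] [DecidableEq ι] :
    Matrix ι ι F →ₐ[F] Matrix ι ι B := (Algebra.ofId F B).mapMatrix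

theorem coefHom_apply {ι : Type} [Fintype ι] [DecidableEq ι] (x : Matrix ι ι F) (i j : ι) :
    coefHom F B ι x i j = algebraMap F B (x i j) := rfl

theorem coef_mul_scalar {ι : Type} [Fintype ι] [DecidableEq ι] (x : Matrix ι ι F) (b : B)
    (i j : ι) : (coefHom F B ι x * scalarHom F B ι b) i j = x i j • b := by
  rw [scalarHom_apply, Matrix.mul_diagonal, coefHom_apply, Algebra.smul_def]

theorem coef_commute {ι : Type} [Fintype ι] [DecidableEq ι] (x : Matrix ι ι F) (b : B) :
    Commute (coefHom F B ι x) (scalarHom F B ι b) := by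
  ext i j
  rw [scalarHom_apply, Matrix.mul_diagonal, Matrix.diagonal_mul, coefHom_apply]
  exact Algebra.commutes _ _

theorem evPart_entry (H : Hier L B) {ι : Type} [Fintype ι] [DecidableEq ι] (k : ℕ)
    (m : Bool → Bool → Fin (d k) → Matrix ι ι F) (i j : ι) :
    (H.map (scalarHom F B ι)).evPart (coefHom F B ι) k m i j ∈ H.X k false := by
  unfold Hier.evPart
  rw [Matrix.sum_apply]
  refine sum_mem fun p _ => ?_
  rw [Matrix.sum_apply]
  refine sum_mem fun a _ => ?_
  show (coefHom F B ι (m p false a) * scalarHom F B ι (H.T k p false a)) i j ∈ _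
  rw [coef_mul_scalar]
  exact Submodule.smul_mem _ _ (Submodule.subset_span ⟨(p, a), rfl⟩)

theorem odPart_entry (H : Hier L B) {ι : Type} [Fintype ι] [DecidableEq ι] (k : ℕ)
    (m : Bool → Bool → Fin (d k) → Matrix ι ι F) (i j : ι) :
    (H.map (scalarHom F B ι)).odPart (coefHom F B ι) k m i j ∈ H.X k true := by
  unfold Hier.odPart
  rw [Matrix.sum_apply]
  refine sum_mem fun p _ => ?_
  rw [Matrix.sum_apply]
  refine sum_mem fun a _ => ?_
  show (coefHom F B ι (m p true a) * scalarHom F B ι (H.T k p true a)) i j ∈ _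
  rw [coef_mul_scalar]
  exact Submodule.smul_mem _ _ (Submodule.subset_span ⟨(p, a), rfl⟩)

/-- the non-unital subring of matrices over `J` -/
def matRing (J : NonUnitalSubalgebra F B) (ι : Type) [Fintype ι] :
    NonUnitalSubring (Matrix ι ι B) where
  carrier := matSet (J : Set B) ι
  zero_mem' := fun i j => J.zero_mem
  add_mem' := fun hx hy i j => J.add_mem (hx i j) (hy i j)
  neg_mem' := fun hx i j => by
    rw [Matrix.neg_apply]; exact neg_mem (hx i j)
  mul_mem' := fun {x y} hx hy i j => by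
    rw [Matrix.mul_apply]
    exact sum_mem fun l _ => mul_mem (hx i l) (hy l j)

theorem det_linear (H : Hier L B) (hk : ∀ N : ℕ, KillsAlg L (Matrix (Fin N) (Fin N) F[X]))
    {K : Type} [CommGroup K] {ι : Type} [Fintype ι] [DecidableEq ι] (δ : Matrix ι ι B → K)
    (hδ : IsDet (matSet (H.J : Set B) ι) δ) (hs : Small H δ)
    (m : Bool → Bool → Fin (d 0) → Matrix ι ι F) :
    δ (1 - (H.map (scalarHom F B ι)).theta (coefHom F B ι) 0 m) = 1 := by
  obtain ⟨k, hk⟩ := kills_matrix hk ι m
  set H' := H.map (scalarHom F B ι) with hH'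
  have hone : δ 1 = 1 := hδ.one (matRing H.J ι).zero_mem
  have key : ∀ j, j ≤ k → δ (1 - H'.theta (coefHom F B ι) (k - j) (evol L m (k - j))) = 1 := by
    intro j
    induction j with
    | zero =>
      intro _
      rw [Nat.sub_zero, hk, theta_zero, sub_zero]
      exact hone
    | succ j ih =>
      intro hj
      have h1 := ih (by omega)
      obtain ⟨i, hi⟩ : ∃ i, k - j = i + 1 := ⟨k - j - 1, by omega⟩
      have h2 : k - (j + 1) = i := by omega
      rw [h2]
      rw [hi] at h1
      have hc : ∀ x p h a, Commute (coefHom F B ι x) (H'.T i p h a) := fun x p h a =>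
        coef_commute x _
      set E := H'.evPart (coefHom F B ι) i (evol L m i) with hE
      set O := H'.odPart (coefHom F B ι) i (evol L m i) with hO
      have hEE : E * E = 0 := ev_mul_ev H' _ i hc _
      have hOO : O * O = 0 := od_mul_od H' _ i hc _
      have hEO : E * O = H'.theta (coefHom F B ι) (i + 1) (evol L m (i + 1)) :=
        ev_mul_od H' _ i hc _
      have hEX : ∀ a b, E a b ∈ H.X i false := evPart_entry H i _
      have hOX : ∀ a b, O a b ∈ H.X i true := odPart_entry H i _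
      have hEJ : E ∈ matRing H.J ι := fun a b => X_le_J H _ _ (hEX a b)
      have hOJ : O ∈ matRing H.J ι := fun a b => X_le_J H _ _ (hOX a b)
      rw [theta_eq, ← hE, ← hO]
      have hfac : 1 - (E + O) = (1 + -E) * (1 + -(E * O)) * (1 + -O) := by
        have e1 : (1 + -E) * (1 + -(E * O)) = 1 + (-E + -(E * O)) := by
          rw [mul_add, mul_one, add_mul, one_mul, neg_mul_neg, ← mul_assoc, hEE, zero_mul]
          abel
        rw [e1, mul_add, mul_one, add_mul, add_mul, one_mul, neg_mul_neg, neg_mul_neg, mul_assoc,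
          hOO, mul_zero]
        abel
      rw [← hEO] at h1
      have e1 : (1 + -E) * (1 + -(E * O)) = 1 + (-E + -(E * O)) := by
        rw [mul_add, mul_one, add_mul, one_mul, neg_mul_neg, ← mul_assoc, hEE, zero_mul]
        abel
      have mE : -E ∈ matRing H.J ι := neg_mem hEJ
      have mO : -O ∈ matRing H.J ι := neg_mem hOJ
      have mEO : -(E * O) ∈ matRing H.J ι := neg_mem (mul_mem hEJ hOJ)
      rw [hfac, e1, hδ.mul _ (add_mem mE mEO) _ mO, ← e1, hδ.mul _ mE _ mEO]
      rw [← sub_eq_add_neg 1 (E * O), h1, mul_one,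
        hs i false (-E) (fun a b => by rw [Matrix.neg_apply]; exact neg_mem (hEX a b)),
        hs i true (-O) (fun a b => by rw [Matrix.neg_apply]; exact neg_mem (hOX a b)), one_mul]
  have := key k le_rfl
  rw [Nat.sub_self] at this
  exact this

theorem gens_span_le (H : Hier L B) :
    NonUnitalAlgebra.adjoin F ((Submodule.span F H.gens : Submodule F B) : Set B) = H.J := by
  apply le_antisymm
  · refine NonUnitalAlgebra.adjoin_le ?_
    intro x hx
    have : Submodule.span F H.gens ≤ H.J.toSubmodule :=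
      Submodule.span_le.2 (NonUnitalAlgebra.subset_adjoin F)
    exact this hx
  · exact NonUnitalAlgebra.adjoin_mono Submodule.subset_span

/-- a determinant-like function on `1 + J` which is trivial on the letters of level `0` is trivial -/
theorem det_trivial (H : Hier L B)
    (hk : ∀ N : ℕ, KillsAlg L (Matrix (Fin N) (Fin N) F[X])) (K : Type) [CommGroup K]
    (κ : B → K) (hκ : IsDet (H.J : Set B) κ)
    (h0 : ∀ h, ∀ x ∈ H.X 0 h, κ (1 + x) = 1) : ∀ x ∈ H.J, κ (1 + x) = 1 := by
  have hnil : ∀ (ι : Type) [Fintype ι] [DecidableEq ι] (A : Matrix ι ι B),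
      A ∈ matSet (H.J : Set B) ι → IsNilpotent A := fun ι _ _ A hA => nil_matrix H hk ι A hA
  have main := lin_induction (Submodule.span F H.gens)
    (fun ι _ _ P => ∀ δ : Matrix ι ι B → K, IsDet (matSet (H.J : Set B) ι) δ → Small H δ →
      δ (1 - P) = 1) ?_ ?_
  · intro x hx
    have hP := main Unit (fun _ _ => -x) (fun _ _ => by
      rw [gens_span_le]; exact neg_mem hx) (fun A => κ (A () ())) ?_ ?_
    · have h3 : (1 - (fun _ _ => -x : Matrix Unit Unit B)) () () = 1 + x := by
        show (1 : Matrix Unit Unit B) () () - (-x) = 1 + x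
        rw [Matrix.one_apply_eq]; abel
      exact (congrArg κ h3).symm.trans hP
    · constructor
      · intro a ha b hb
        have := hκ.mul (a () ()) (ha () ()) (b () ()) (hb () ())
        simpa [Matrix.mul_apply, Matrix.add_apply] using this
      · intro a ha b hb
        have := hκ.comm (a () ()) (ha () ()) (b () ()) (hb () ())
        simpa [Matrix.mul_apply, Matrix.add_apply] using this
    · intro k h M hM
      have := kappa_X H κ hκ h0 k h (M () ()) (hM () ())
      simpa [Matrix.add_apply] using this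
  · -- linear matrices
    intro ι _ _ M hM δ hδ hs
    have hc : ∀ i j, ∃ c : Bool × Bool × Fin (d 0) → F,
        ∑ x, c x • H.T 0 x.1 x.2.1 x.2.2 = M i j := fun i j =>
      (Submodule.mem_span_range_iff_exists_fun F).1 (hM i j)
    choose c hc using hc
    have hM' : M = (H.map (scalarHom F B ι)).theta (coefHom F B ι) 0
        (fun p h a => (fun i j => c i j (p, h, a) : Matrix ι ι F)) := by
      ext i j
      rw [← hc i j]
      unfold Hier.theta
      rw [Matrix.sum_apply, Fintype.sum_prod_type]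
      refine Finset.sum_congr rfl fun p _ => ?_
      rw [Matrix.sum_apply, Fintype.sum_prod_type]
      refine Finset.sum_congr rfl fun h _ => ?_
      rw [Matrix.sum_apply]
      refine Finset.sum_congr rfl fun a _ => ?_
      exact (coef_mul_scalar (B := B) (fun i j => c i j (p, h, a) : Matrix ι ι F)
        (H.T 0 p h a) i j).symm
    rw [hM']
    exact det_linear H hk δ hδ hs _
  · -- the doubling step
    intro ι _ _ A D Q hA hD hQ hΦ δ hδ hs
    have h1 := hΦ (dbl δ) (IsDet.double H.J hnil δ hδ) (small_dbl H δ hs)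
    have hone : δ 1 = 1 := hδ.one (matRing H.J ι).zero_mem
    have h2 : (1 : Matrix (ι ⊕ ι) (ι ⊕ ι) B) - Matrix.fromBlocks 0 D A Q =
        Matrix.fromBlocks 1 (-D) (-A) (1 - Q) := by
      rw [← Matrix.fromBlocks_one, sub_eq_add_neg, Matrix.fromBlocks_neg, Matrix.fromBlocks_add]
      congr 1 <;> simp [sub_eq_add_neg]
    rw [h2] at h1
    unfold dbl at h1
    rw [Matrix.toBlocks_fromBlocks₁₁, Matrix.toBlocks_fromBlocks₁₂,
      Matrix.toBlocks_fromBlocks₂₁, Matrix.toBlocks_fromBlocks₂₂, hone, one_mul,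
      Ring.inverse_one, mul_one, neg_mul_neg] at h1
    rw [← h1]
    congr 1
    abel

end

end Pool.Agent.NilAdjF
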