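import Pool.Agent.Lib.MP_1fb0bc_al.Ins.Sched
import Pool.Agent.Lib.MP_1fb0bc_al.Ins.Mu

set_option autoImplicit false

open Polynomial

namespace Pool.Agent.NilAdjF

variable {F : Type} [Field F]

/-- degrees at most double at each step -/
theorem natDegree_evol {d : ℕ → ℕ} (L : LevelData F d) {N : ℕ}
    (m : Bool → Bool → Fin (d 0) → Matrix (Fin N) (Fin N) F[X]) (Δ : ℕ)
    (hdeg : ∀ p h a i j, (m p h a i j).natDegree ≤ Δ) (k : ℕ) :
    ∀ p h a i j, (evol L m k p h a i j).natDegree ≤ 2 ^ k * Δ := by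
  induction k with
  | zero => simpa [evol] using hdeg
  | succ k ih =>
    intro ε p c i j
    simp only [evol, step, Matrix.sum_apply, Matrix.smul_apply]
    refine Polynomial.natDegree_sum_le_of_forall_le _ _ fun a _ => ?_
    refine Polynomial.natDegree_sum_le_of_forall_le _ _ fun b _ => ?_
    refine (Polynomial.natDegree_smul_le _ _).trans ?_
    rw [Matrix.mul_apply]
    refine Polynomial.natDegree_sum_le_of_forall_le _ _ fun x _ => ?_
    refine (Polynomial.natDegree_mul_le).trans ?_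
    have h1 := ih p false a i x
    have h2 := ih p true b x j
    have e : 2 ^ (k + 1) * Δ = 2 ^ k * Δ + 2 ^ k * Δ := by ring
    omega

private theorem exists_surj (F : Type) [Field F] (k : ℕ) :
    ∃ μ : Bool → Fin (dd k) → Fin (dd k) → Fin (dd (k + 1)) → F, SurjMu μ := by
  obtain ⟨μ, h, -⟩ := exists_mu (F := F) (n := dd k) (n' := dd (k + 1)) (N := 0) (Δ := 0)
    (fun _ _ _ => 0) (fun _ _ _ i => i.elim0) (by simpa using dd_step k)
  exact ⟨μ, h⟩

/-- all linear elements with matrix coefficients -/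
private abbrev Om (F : Type) [Field F] : Type := Σ N : ℕ, (Bool → Bool → Fin (dd 0) → Matrix (Fin N) (Fin N) F[X])

private abbrev St (F : Type) [Field F] (k : ℕ) : Type :=
  (ω : Om F) → Bool → Bool → Fin (dd k) → Matrix (Fin ω.1) (Fin ω.1) F[X]

open Classical in
private noncomputable def pick (tgt : Om F) (k : ℕ) (s : St F k) :
    {μ : Bool → Fin (dd k) → Fin (dd k) → Fin (dd (k + 1)) → F // SurjMu μ} :=
  if h : ∃ μ : Bool → Fin (dd k) → Fin (dd k) → Fin (dd (k + 1)) → F,
      SurjMu μ ∧ step μ (s tgt) = 0 then ⟨h.choose, h.choose_spec.1⟩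
  else ⟨(exists_surj F k).choose, (exists_surj F k).choose_spec⟩

private theorem pick_spec (tgt : Om F) (k : ℕ) (s : St F k)
    (h : ∃ μ : Bool → Fin (dd k) → Fin (dd k) → Fin (dd (k + 1)) → F,
      SurjMu μ ∧ step μ (s tgt) = 0) : step (pick tgt k s).1 (s tgt) = 0 := by
  unfold pick
  rw [dif_pos h]
  exact h.choose_spec.2

private noncomputable def stt (f : ℕ → Om F) : (k : ℕ) → St F k
  | 0 => fun ω => ω.2
  | k + 1 => fun ω => step (pick (f (Nat.unpair (Nat.log 2 k)).1) k (stt f k)).1 (stt f k ω)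

private noncomputable def lev (f : ℕ → Om F) : LevelData F dd where
  μ k := (pick (f (Nat.unpair (Nat.log 2 k)).1) k (stt f k)).1
  surj k := (pick (f (Nat.unpair (Nat.log 2 k)).1) k (stt f k)).2

private theorem evol_lev (f : ℕ → Om F) (ω : Om F) (k : ℕ) : evol (lev f) ω.2 k = stt f k ω := by
  induction k with
  | zero => rfl
  | succ k ih =>
    simp only [evol, stt, lev] at ih ⊢
    rw [ih]

private theorem countable_poly [Countable F] : Countable F[X] := by
  have : Countable (ℕ →₀ F) := inferInstance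
  let g : F[X] → (ℕ →₀ F) := fun p => Finsupp.onFinset (Finset.range (p.natDegree + 1)) p.coeff
    (fun n hn => Finset.mem_range.2 (Nat.lt_succ_of_le (Polynomial.le_natDegree_of_ne_zero hn)))
  refine Function.Injective.countable (f := g) fun p q h => ?_
  ext n
  have := DFunLike.congr_fun h n
  simpa [g] using this

theorem exists_levelData (F : Type) [Field F] [Countable F] :
    ∃ L : LevelData F dd, ∀ N : ℕ, KillsAlg L (Matrix (Fin N) (Fin N) F[X]) := by
  classical
  have := countable_poly (F := F)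
  have (N : ℕ) : Countable (Matrix (Fin N) (Fin N) F[X]) := by
    unfold Matrix
    infer_instance
  have : Nonempty (Om F) := ⟨⟨0, fun _ _ _ => 0⟩⟩
  obtain ⟨f, hf⟩ := exists_surjective_nat (Om F)
  refine ⟨lev f, fun N m => ?_⟩
  obtain ⟨j, hj⟩ := hf ⟨N, m⟩
  obtain ⟨Δ, hΔ⟩ : ∃ Δ : ℕ, ∀ p h a i j, (m p h a i j).natDegree ≤ Δ := by
    refine ⟨∑ p, ∑ h, ∑ a, ∑ i, ∑ j, (m p h a i j).natDegree, fun p h a i j => ?_⟩
    calc (m p h a i j).natDegree ≤ ∑ j, (m p h a i j).natDegree :=
          Finset.single_le_sum (f := fun j => (m p h a i j).natDegree)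
            (fun _ _ => Nat.zero_le _) (Finset.mem_univ j)
      _ ≤ ∑ i, ∑ j, (m p h a i j).natDegree :=
          Finset.single_le_sum (f := fun i => ∑ j, (m p h a i j).natDegree)
            (fun _ _ => Nat.zero_le _) (Finset.mem_univ i)
      _ ≤ ∑ a, ∑ i, ∑ j, (m p h a i j).natDegree :=
          Finset.single_le_sum (f := fun a => ∑ i, ∑ j, (m p h a i j).natDegree)
            (fun _ _ => Nat.zero_le _) (Finset.mem_univ a)
      _ ≤ ∑ h, ∑ a, ∑ i, ∑ j, (m p h a i j).natDegree :=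
          Finset.single_le_sum (f := fun h => ∑ a, ∑ i, ∑ j, (m p h a i j).natDegree)
            (fun _ _ => Nat.zero_le _) (Finset.mem_univ h)
      _ ≤ _ :=
          Finset.single_le_sum (f := fun p => ∑ h, ∑ a, ∑ i, ∑ j, (m p h a i j).natDegree)
            (fun _ _ => Nat.zero_le _) (Finset.mem_univ p)
  obtain ⟨n₀, hn₀⟩ := dd_fit (2 * N ^ 2 * (2 * Δ + 1))
  set n := Nat.pair j n₀ with hn
  have hge : n₀ ≤ n := Nat.right_le_pair j n₀
  have hfit := hn₀ n hge
  set k := 2 ^ n with hk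
  have htgt : f (Nat.unpair (Nat.log 2 k)).1 = ⟨N, m⟩ := by
    rw [hk, Nat.log_pow (by norm_num), hn, Nat.unpair_pair, hj]
  refine ⟨k + 1, ?_⟩
  have hdeg := natDegree_evol (lev f) m Δ hΔ k
  have hex : ∃ μ : Bool → Fin (dd k) → Fin (dd k) → Fin (dd (k + 1)) → F,
      SurjMu μ ∧ step μ (evol (lev f) m k) = 0 := by
    refine exists_mu (Δ := 2 ^ k * Δ) _ hdeg ?_
    refine le_trans (Nat.add_le_add_right ?_ _) hfit
    have h1 : 1 ≤ 2 ^ k := Nat.one_le_two_pow
    calc 2 * N ^ 2 * (2 * (2 ^ k * Δ) + 1) ≤ 2 * N ^ 2 * ((2 * Δ + 1) * 2 ^ k) := by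
          refine Nat.mul_le_mul_left _ ?_
          nlinarith
      _ = _ := by ring
  have e1 : evol (lev f) m k = stt f k ⟨N, m⟩ := evol_lev f ⟨N, m⟩ k
  rw [e1] at hex
  have key := pick_spec ⟨N, m⟩ k (stt f k) hex
  have e2 : evol (lev f) m (k + 1) = stt f (k + 1) ⟨N, m⟩ := evol_lev f ⟨N, m⟩ (k + 1)
  rw [e2]
  simp only [stt]
  rw [htgt]
  exact key

end Pool.Agent.NilAdjF
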