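import Pool.Agent.Lib.MP_1fb0bc_al.Ins.Defs

set_option autoImplicit false

namespace Pool.Agent.NilAdjF

variable {F : Type} [Field F]

theorem dd_pos (k : ℕ) : 0 < dd k := by
  unfold dd
  positivity

theorem sched_clog_succ (k : ℕ) (hk : 1 ≤ k) :
    Nat.clog 2 (k + 1) = Nat.clog 2 k ∨ Nat.clog 2 (k + 1) = Nat.clog 2 k + 1 := by
  have h1 : Nat.clog 2 k ≤ Nat.clog 2 (k + 1) := Nat.clog_mono_right 2 (Nat.le_succ k)
  have h2 : Nat.clog 2 (k + 1) ≤ Nat.clog 2 k + 1 := by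
    rw [Nat.clog_le_iff_le_pow (by norm_num)]
    have h3 : k ≤ 2 ^ Nat.clog 2 k := Nat.le_pow_clog (by norm_num) k
    rw [pow_succ]
    omega
  omega

theorem sched_gExp_succ (k : ℕ) : gExp (k + 1) ≤ gExp k + 1 := by
  rcases Nat.eq_zero_or_pos k with h0 | hk
  · subst h0
    simp [gExp]
  · unfold gExp
    have h3 : k ≤ 2 ^ Nat.clog 2 k := Nat.le_pow_clog (by norm_num) k
    have h4 : 0 < 2 ^ Nat.clog 2 k := by positivity
    rcases sched_clog_succ k hk with h | h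
    · rw [h]; omega
    · rw [h, pow_succ]; omega

theorem dd_step (k : ℕ) : 2 * dd (k + 1) ≤ dd k ^ 2 := by
  unfold dd
  rw [← pow_succ', ← pow_mul]
  apply Nat.pow_le_pow_right (by norm_num)
  have h1 := sched_gExp_succ k
  have h2 : 2 ^ gExp (k + 1) ≤ 2 ^ (gExp k + 1) := Nat.pow_le_pow_right (by norm_num) h1
  rw [pow_succ] at h2
  omega

theorem sched_gExp_pow (n : ℕ) : gExp (2 ^ n) = n := by
  unfold gExp
  rw [Nat.clog_pow 2 n (by norm_num)]
  omega

theorem sched_gExp_pow_succ (n : ℕ) (hn : 2 ≤ n) : gExp (2 ^ n + 1) = 0 := by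
  unfold gExp
  have h1 : n + 2 ≤ 2 ^ n := by
    induction n, hn using Nat.le_induction with
    | base => norm_num
    | succ m hm ih => rw [pow_succ]; omega
  have h2 : Nat.clog 2 (2 ^ n + 1) = n + 1 := by
    apply le_antisymm
    · rw [Nat.clog_le_iff_le_pow (by norm_num), pow_succ]
      omega
    · rw [Nat.succ_le_iff, Nat.lt_clog_iff_pow_lt (by norm_num)]
      omega
  rw [h2, pow_succ]
  omega

/-- at the special levels `2 ^ n` there is room for `C * 2 ^ (2 ^ n)` relations -/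
theorem dd_fit (C : ℕ) : ∃ n₀, ∀ n ≥ n₀, C * 2 ^ (2 ^ n) + 2 * dd (2 ^ n + 1) ≤ dd (2 ^ n) ^ 2 := by
  refine ⟨C + 2, fun n hn => ?_⟩
  unfold dd
  rw [sched_gExp_pow, sched_gExp_pow_succ n (by omega)]
  have h1 : n < 2 ^ n := Nat.lt_two_pow_self
  have h2 : 2 ^ n < 2 ^ (2 ^ n) := Nat.lt_two_pow_self
  have h3 : C + 2 ≤ 2 ^ (2 ^ n) := by omega
  have h4 : (2 ^ (1 + 2 ^ n)) ^ 2 = 4 * (2 ^ (2 ^ n) * 2 ^ (2 ^ n)) := by
    rw [pow_add]; ring
  rw [h4]
  norm_num
  generalize 2 ^ (2 ^ n) = x at h3 ⊢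
  have h5 : C * x ≤ x * x := Nat.mul_le_mul_right x (by omega)
  have h6 : 2 * 2 ≤ x * x := Nat.mul_le_mul (by omega) (by omega)
  omega

theorem sched_gExp_le (k : ℕ) : gExp k ≤ Nat.clog 2 k := by
  unfold gExp
  have h3 : k ≤ 2 ^ Nat.clog 2 k := Nat.le_pow_clog (by norm_num) k
  omega

theorem sched_sum (K : ℕ) :
    ∑ m ∈ Finset.range K, 2 ^ gExp m ≤ K + 2 ^ gExp K + 2 * 2 ^ Nat.clog 2 K := by
  induction K with
  | zero => simp
  | succ K ih =>
    rw [Finset.sum_range_succ]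
    rcases Nat.eq_zero_or_pos K with h0 | hK
    · subst h0
      simp [gExp]
    · have h3 : K ≤ 2 ^ Nat.clog 2 K := Nat.le_pow_clog (by norm_num) K
      rcases sched_clog_succ K hK with h | h
      · rw [h]
        have h5 : 2 * 2 ^ gExp K ≤ 1 + 2 ^ gExp (K + 1) := by
          unfold gExp
          rw [h]
          rcases le_or_gt (2 ^ Nat.clog 2 K) (Nat.clog 2 K + K) with h6 | h6
          · have h7 : Nat.clog 2 K + (K + 1) - 2 ^ Nat.clog 2 K =
                (Nat.clog 2 K + K - 2 ^ Nat.clog 2 K) + 1 := by omega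
            rw [h7, pow_succ]
            omega
          · have h7 : Nat.clog 2 K + K - 2 ^ Nat.clog 2 K = 0 := by omega
            have h8 : Nat.clog 2 K + (K + 1) - 2 ^ Nat.clog 2 K = 0 := by omega
            rw [h7, h8]
            norm_num
        omega
      · have h5 : 2 ^ gExp K ≤ 2 ^ Nat.clog 2 K :=
          Nat.pow_le_pow_right (by norm_num) (sched_gExp_le K)
        have h6 : 0 < 2 ^ gExp (K + 1) := by positivity
        rw [h, pow_succ]
        omega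

theorem sched_clog_bound (K : ℕ) : 2 ^ Nat.clog 2 K ≤ 2 * K + 1 := by
  rcases Nat.lt_or_ge K 2 with h | h
  · interval_cases K <;> simp
  · have h1 : 2 ^ (Nat.clog 2 K).pred < K := Nat.pow_pred_clog_lt_self (by norm_num) (by omega)
    have h2 : 0 < Nat.clog 2 K := Nat.clog_pos (by norm_num) h
    obtain ⟨j, hj⟩ := Nat.exists_eq_succ_of_ne_zero h2.ne'
    rw [hj, Nat.pred_succ] at h1
    rw [hj, pow_succ]
    omega

theorem dd_prod_bound (K : ℕ) :
    ∏ m ∈ Finset.range K, (1 + 4 * dd m) ^ 2 ≤ 2 ^ 6 * (2 ^ K) ^ 22 := by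
  have h1 : ∏ m ∈ Finset.range K, (1 + 4 * dd m) ^ 2 ≤
      ∏ m ∈ Finset.range K, 2 ^ (8 + 2 * 2 ^ gExp m) := by
    refine Finset.prod_le_prod' fun m _ => ?_
    have h2 : 1 + 4 * dd m ≤ 2 ^ (4 + 2 ^ gExp m) := by
      unfold dd
      rw [pow_add, pow_add]
      have : 0 < 2 ^ 2 ^ gExp m := by positivity
      omega
    calc (1 + 4 * dd m) ^ 2 ≤ (2 ^ (4 + 2 ^ gExp m)) ^ 2 := Nat.pow_le_pow_left h2 2
      _ = 2 ^ (8 + 2 * 2 ^ gExp m) := by rw [← pow_mul]; congr 1; ring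
  refine h1.trans ?_
  rw [Finset.prod_pow_eq_pow_sum, ← pow_mul, ← pow_add]
  apply Nat.pow_le_pow_right (by norm_num)
  rw [Finset.sum_add_distrib, ← Finset.mul_sum]
  simp only [Finset.sum_const, Finset.card_range, smul_eq_mul]
  have h3 := sched_sum K
  have h4 : 2 ^ gExp K ≤ 2 ^ Nat.clog 2 K := Nat.pow_le_pow_right (by norm_num) (sched_gExp_le K)
  have h5 := sched_clog_bound K
  omega

end Pool.Agent.NilAdjF
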