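import Pool.Agent.Lib.MP_1fb0bc_al.Ins.Main
import Pool.Agent.Lib.MP_1fb0bc_al.Ins.Kill
import Pool.Agent.Lib.MP_1fb0bc_al.Ins.Rep
import Pool.Agent.Lib.MP_1fb0bc_al.Ins.KThm
import Pool.Agent.Lib.MP_1fb0bc_al.Ins.Growth
import Pool.Agent.Lib.MP_1fb0bc_al.Ins.Elem
import Pool.Agent.Lib.MP_1fb0bc_al.Ins.Sched

set_option autoImplicit false

namespace Pool.Agent.NilAdjF

/-- the algebra over a finite field -/
theorem exists_alg (F : Type) [Field F] [Finite F] :
    ∃ (R : Type) (_ : NonUnitalRing R) (_ : Module F R)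
      (_ : IsScalarTower F R R) (_ : SMulCommClass F R R),
      IsNil R ∧ (∀ m : ℕ, IsNil (Matrix (Fin m) (Fin m) R)) ∧ ¬ FiniteDimensional F R ∧
      (∃ S : Set R, S.Finite ∧ NonUnitalAlgebra.adjoin F S = ⊤ ∧
        ∃ C : ℕ, ∀ n : ℕ, 1 ≤ n → growth F S n ≤ C * n ^ 22) ∧
      ∃ T : Set R, T.Finite ∧ GeneratesAdjoint T := by
  classical
  have : Countable F := Finite.to_countable
  obtain ⟨L, hL⟩ := exists_levelData F
  obtain ⟨B, _, _, H, hind⟩ := exists_rep L dd_pos
  have hnil : ∀ (ι : Type) [Fintype ι] [DecidableEq ι] (A : Matrix ι ι B),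
      A ∈ matSet (H.J : Set B) ι → IsNilpotent A :=
    fun ι _ _ A hA => nil_matrix H hL ι A hA
  set Y : Set B := (H.X 0 false : Set B) ∪ (H.X 0 true : Set B) with hYdef
  have hYJ : Y ⊆ H.J := by
    rintro x (hx | hx)
    · exact X_le_J H 0 false hx
    · exact X_le_J H 0 true hx
  set G : Set B := {x | ∃ c : F, ∃ g ∈ H.gens, x = c • g} with hGdef
  have hgens : H.gens.Finite := Set.finite_range _
  have hGfin : G.Finite := by
    refine (((Set.finite_univ (α := F)).prod hgens).image fun x : F × B => x.1 • x.2).subset ?_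
    rintro x ⟨c, g, hg, rfl⟩
    exact ⟨(c, g), ⟨Set.mem_univ _, hg⟩, rfl⟩
  have hGJ : G ⊆ H.J := by
    rintro x ⟨c, g, hg, rfl⟩
    exact SMulMemClass.smul_mem c (NonUnitalAlgebra.subset_adjoin F hg)
  have hGeq : NonUnitalAlgebra.adjoin F G = H.J := by
    refine le_antisymm (NonUnitalAlgebra.adjoin_le hGJ) ?_
    refine NonUnitalAlgebra.adjoin_mono ?_
    intro g hg
    exact ⟨1, g, hg, by rw [one_smul]⟩
  have hGs : ∀ (c : F), ∀ g ∈ G, c • g ∈ G := by
    rintro c x ⟨c', g, hg, rfl⟩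
    exact ⟨c * c', g, hg, by rw [smul_smul]⟩
  refine assembly H.J H.gens G Y hgens hGfin hGJ ?_ hYJ rfl hnil ?_ 22 ?_ ?_
  · -- the spaces of letters are finite
    have hf : ∀ h, (H.X 0 h : Set B).Finite := by
      intro h
      have : Module.Finite F ↥(H.X 0 h) :=
        Module.Finite.span_of_finite _ (Set.finite_range _)
      have : Finite ↥(H.X 0 h) := Module.finite_of_finite F
      exact Set.toFinite _
    exact (hf false).union (hf true)
  · -- `J` is infinite-dimensional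
    intro hfin
    have h1 : LinearIndependent F
        (fun k : ℕ => (⟨H.T k true true ⟨0, dd_pos k⟩, T_mem_J H k _ _ _⟩ : H.J)) := by
      refine LinearIndependent.of_comp (NonUnitalSubalgebra.toSubmodule H.J).subtype ?_
      exact hind
    exact not_finite_iff_infinite.2 inferInstance
      (h1.finite : Finite ℕ)
  · -- growth
    refine ⟨2 ^ 6 * 2 ^ 22, fun n hn => ?_⟩
    have hlt : n < 2 ^ Nat.clog 2 (n + 1) := by
      have := Nat.le_pow_clog (b := 2) one_lt_two (n + 1)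
      omega
    obtain ⟨h1, h2⟩ := finrank_U_pow H (Nat.clog 2 (n + 1)) n hlt
    refine ⟨h1, h2.trans ((dd_prod_bound _).trans ?_)⟩
    have h3 : 2 ^ Nat.clog 2 (n + 1) ≤ 2 * n := by
      have := Nat.pow_pred_clog_lt_self (b := 2) one_lt_two (x := n + 1) (by omega)
      have h4 : 0 < Nat.clog 2 (n + 1) := Nat.clog_pos one_lt_two (by omega)
      have h5 : 2 ^ Nat.clog 2 (n + 1) = 2 * 2 ^ (Nat.clog 2 (n + 1)).pred := by
        conv_lhs => rw [← Nat.succ_pred_eq_of_pos h4]
        rw [pow_succ]; ring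
      omega
    calc 2 ^ 6 * (2 ^ Nat.clog 2 (n + 1)) ^ 22 ≤ 2 ^ 6 * (2 * n) ^ 22 :=
          Nat.mul_le_mul_left _ (Nat.pow_le_pow_left h3 _)
      _ = 2 ^ 6 * 2 ^ 22 * n ^ 22 := by rw [mul_pow, mul_assoc]
  · intro r hr
    rw [← hGeq] at hr hnil hYJ
    exact elem_main G Y hYJ hGs hnil
      (fun K _ κ hκ hy => by
        rw [hGeq] at hκ ⊢
        exact det_trivial H hL K κ hκ fun h x hx => hy x (by
          cases h
          · exact Or.inl hx
          · exact Or.inr hx)) r hr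

end Pool.Agent.NilAdjF
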