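import Mathlib

/-!
# Definitions used in the statement of `AllFiniteFields`
-/

set_option autoImplicit false

namespace Pool.Agent.NilAdjF

/-- `rpow a n` is the power `a ^ (n + 1)`, in a ring which need not have a unit. -/
def rpow {R : Type*} [NonUnitalRing R] (a : R) : ℕ → R
  | 0 => a
  | n + 1 => rpow a n * a

/-- The ring `R` is nil: for every `a` in `R` some power `a ^ (n + 1)` is zero. -/
def IsNil (R : Type*) [NonUnitalRing R] : Prop := ∀ a : R, ∃ n : ℕ, rpow a n = 0

/-- The set of all products of exactly `n + 1` elements of `S`. -/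
def prods {R : Type*} [NonUnitalRing R] (S : Set R) : ℕ → Set R
  | 0 => S
  | n + 1 => {x | ∃ y ∈ prods S n, ∃ s ∈ S, x = y * s}

/-- The dimension over `F` of `V + V ^ 2 + ... + V ^ n`, where `V` is the span of `S`. -/
noncomputable def growth (F : Type*) [Field F] {R : Type*} [NonUnitalRing R] [Module F R]
    (S : Set R) (n : ℕ) : ℕ :=
  Module.finrank F (Submodule.span F (⋃ i < n, prods S i))

/-- `T` generates the adjoint group of `R`, whose multiplication is `a ∘ b = a + b + a * b`:
every subset of `R` which contains `T` and `0` and is closed under `∘` and under taking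
inverses with respect to `∘` is all of `R`. -/
def GeneratesAdjoint {R : Type*} [NonUnitalRing R] (T : Set R) : Prop :=
  ∀ H : Set R, T ⊆ H → 0 ∈ H → (∀ a ∈ H, ∀ b ∈ H, a + b + a * b ∈ H) →
    (∀ a ∈ H, ∀ b : R, a + b + a * b = 0 → b + a + b * a = 0 → b ∈ H) → H = Set.univ

end Pool.Agent.NilAdjF
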