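import Pool.Agent.Lib.MP_1fb0bc_al.Ins.Elem1
import Pool.Agent.Lib.MP_1fb0bc_al.Ins.Stmt

set_option autoImplicit false

open Polynomial

namespace Pool.Agent.NilAdjF

variable {F : Type} [Field F]

section aux

variable {B : Type} [Ring B] [Algebra F B]

/-- matrices with entries in a submodule -/
private def matSub (P : Submodule F B) : Submodule F (Matrix (Fin 3) (Fin 3) B) where
  carrier := {A | ∀ i j, A i j ∈ P}
  zero_mem' := fun _ _ => P.zero_mem
  add_mem' := fun hA hA' i j => P.add_mem (hA i j) (hA' i j)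
  smul_mem' := fun c _ hA i j => P.smul_mem c (hA i j)

private lemma mem_matSub {P : Submodule F B} {A : Matrix (Fin 3) (Fin 3) B} :
    A ∈ matSub P ↔ ∀ i j, A i j ∈ P := Iff.rfl

private lemma matSub_mul (P Q : Submodule F B) : matSub P * matSub Q ≤ matSub (P * Q) := by
  rw [Submodule.mul_le]
  intro A hA A' hA' i j
  rw [Matrix.mul_apply]
  exact Submodule.sum_mem _ fun k _ => Submodule.mul_mem_mul (hA i k) (hA' k j)

private lemma one_le_matSub : (1 : Submodule F (Matrix (Fin 3) (Fin 3) B)) ≤ matSub 1 := by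
  rw [Submodule.one_le]
  intro i j
  by_cases h : i = j
  · subst h
    rw [Matrix.one_apply_eq]
    exact Submodule.one_le.1 le_rfl
  · rw [Matrix.one_apply_ne h]
    exact Submodule.zero_mem _

private lemma pow_le_matSub {V : Submodule F (Matrix (Fin 3) (Fin 3) B)} {W : Submodule F B}
    (h : V ≤ matSub W) (n : ℕ) : V ^ n ≤ matSub (W ^ n) := by
  induction n with
  | zero =>
    rw [pow_zero, pow_zero]
    exact one_le_matSub
  | succ n ih =>
    rw [pow_succ, pow_succ]
    exact (mul_le_mul' ih h).trans (matSub_mul _ _)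

private noncomputable def matSubEquiv (P : Submodule F B) :
    matSub P ≃ₗ[F] (Fin 3 → Fin 3 → P) where
  toFun A := fun i j => ⟨A.1 i j, A.2 i j⟩
  map_add' _ _ := rfl
  map_smul' _ _ := rfl
  invFun f := ⟨fun i j => (f i j : B), fun i j => (f i j).2⟩
  left_inv _ := rfl
  right_inv _ := rfl

private lemma finite_matSub (P : Submodule F B) [Module.Finite F P] :
    Module.Finite F (matSub P) := Module.Finite.equiv (matSubEquiv P).symm

private lemma finrank_matSub (P : Submodule F B) [Module.Finite F P] :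
    Module.finrank F (matSub P) = 9 * Module.finrank F P := by
  rw [LinearEquiv.finrank_eq (matSubEquiv P), Module.finrank_pi_fintype]
  simp only [Module.finrank_pi_fintype, Finset.sum_const, Finset.card_univ, Fintype.card_fin,
    smul_eq_mul]
  ring

private lemma mem_triAlg {J : NonUnitalSubalgebra F B} {A : Matrix (Fin 3) (Fin 3) B} :
    A ∈ triAlg J ↔ ∀ i j, (j ≤ i → A i j ∈ J) ∧
      (i < j → ∃ c : F, ∃ x ∈ J, A i j = algebraMap F B c + x) := Iff.rfl

private lemma single_mem_triAlg {J : NonUnitalSubalgebra F B} (i j : Fin 3) {g : B}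
    (hg : g ∈ J) : Matrix.single i j g ∈ triAlg J := by
  rw [mem_triAlg]
  intro k l
  have h : Matrix.single i j g k l ∈ J := by
    rw [Matrix.single_apply]
    split_ifs
    · exact hg
    · exact J.zero_mem
  exact ⟨fun _ => h, fun _ => ⟨0, _, h, by rw [map_zero, zero_add]⟩⟩

private lemma single_one_mem_triAlg {J : NonUnitalSubalgebra F B} {i j : Fin 3} (hij : i < j) :
    Matrix.single i j (1 : B) ∈ triAlg J := by
  rw [mem_triAlg]
  intro k l
  rw [Matrix.single_apply]
  constructor
  · intro hlk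
    rw [if_neg]
    · exact J.zero_mem
    · rintro ⟨rfl, rfl⟩
      exact absurd hij (not_lt.2 hlk)
  · intro _
    split_ifs
    · exact ⟨1, 0, J.zero_mem, by rw [map_one, add_zero]⟩
    · exact ⟨0, 0, J.zero_mem, by rw [map_zero, add_zero]⟩

private lemma elemGens_subset {J : NonUnitalSubalgebra F B} {G Y : Set B} (hG : G ⊆ J)
    (hY : Y ⊆ J) : elemGens F G Y ⊆ triAlg J := by
  rintro A ((⟨i, j, hij, c, rfl⟩ | ⟨i, j, -, g, hg, rfl⟩) | ⟨y, hy, rfl⟩)
  · have h : Matrix.single i j (algebraMap F B c) = c • Matrix.single i j (1 : B) := by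
      rw [Matrix.smul_single, Algebra.smul_def, mul_one]
    rw [h]
    exact SMulMemClass.smul_mem c (single_one_mem_triAlg hij)
  · exact single_mem_triAlg i j (hG hg)
  · exact single_mem_triAlg 0 0 (hY hy)

private lemma elemGens_finite [Finite F] {G Y : Set B} (hG : G.Finite) (hY : Y.Finite) :
    (elemGens F G Y).Finite := by
  refine (Set.Finite.union ?_ ?_).union ?_
  · refine (Set.finite_range fun x : (Fin 3 × Fin 3) × F =>
      Matrix.single x.1.1 x.1.2 (algebraMap F B x.2)).subset ?_
    rintro A ⟨i, j, -, c, rfl⟩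
    exact ⟨((i, j), c), rfl⟩
  · refine (((Set.finite_univ (α := Fin 3 × Fin 3)).prod hG).image
      fun x : (Fin 3 × Fin 3) × B => Matrix.single x.1.1 x.1.2 x.2).subset ?_
    rintro A ⟨i, j, -, g, hg, rfl⟩
    exact ⟨((i, j), g), ⟨Set.mem_univ _, hg⟩, rfl⟩
  · refine (hY.image fun y : B => Matrix.single 0 0 y).subset ?_
    rintro A ⟨y, hy, rfl⟩
    exact ⟨y, hy, rfl⟩

private lemma triGens_subset {J : NonUnitalSubalgebra F B} {G : Set B} (hG : G ⊆ J) :
    triGens G ⊆ triAlg J := by
  rintro A (⟨i, j, hij, rfl⟩ | ⟨i, j, g, hg, rfl⟩)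
  · exact single_one_mem_triAlg hij
  · exact single_mem_triAlg i j (hG hg)

private lemma triGens_matSub (G : Set B) :
    triGens G ⊆ matSub (Submodule.span F (insert 1 G)) := by
  rintro A (⟨i, j, hij, rfl⟩ | ⟨i, j, g, hg, rfl⟩) k l
  · rw [Matrix.single_apply]
    split_ifs
    · exact Submodule.subset_span (Set.mem_insert _ _)
    · exact Submodule.zero_mem _
  · rw [Matrix.single_apply]
    split_ifs
    · exact Submodule.subset_span (Set.mem_insert_of_mem _ hg)
    · exact Submodule.zero_mem _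

private lemma rpow_hat {J : NonUnitalSubalgebra F B} {m : ℕ}
    (A : Matrix (Fin m) (Fin m) (triAlg J)) (n : ℕ) : hat (rpow A n) = hat A ^ (n + 1) := by
  induction n with
  | zero => rw [zero_add, pow_one]; rfl
  | succ n ih =>
    rw [pow_succ, ← ih, ← hat_mul]
    rfl

private lemma rpow_coe {J : NonUnitalSubalgebra F B} (A : triAlg J) (n : ℕ) :
    ((rpow A n : triAlg J) : Matrix (Fin 3) (Fin 3) B) = (A : Matrix (Fin 3) (Fin 3) B) ^ (n + 1) := by
  induction n with
  | zero => rw [zero_add, pow_one]; rfl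
  | succ n ih =>
    rw [pow_succ, ← ih]
    rfl

private lemma prods_mem {J : NonUnitalSubalgebra F B} {S : Set (triAlg J)} {W : Submodule F B}
    (h : ∀ s ∈ S, ∀ i j, (s : Matrix (Fin 3) (Fin 3) B) i j ∈ W) (n : ℕ) :
    ∀ x ∈ prods S n, (x : Matrix (Fin 3) (Fin 3) B) ∈ matSub (W ^ (n + 1)) := by
  induction n with
  | zero =>
    intro x hx
    rw [zero_add, pow_one]
    exact h x hx
  | succ n ih =>
    rintro x ⟨y, hy, s, hs, rfl⟩
    rw [pow_succ]
    exact matSub_mul _ _ (Submodule.mul_mem_mul (ih y hy) (h s hs))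

end aux

/-- abstract assembly: everything about the final algebra except the existence of the data -/
theorem assembly [Finite F] {B : Type} [Ring B] [Algebra F B] (J : NonUnitalSubalgebra F B)
    (G₀ G Y : Set B) (hG₀ : G₀.Finite) (hG : G.Finite) (hGJ : G ⊆ J) (hY : Y.Finite)
    (hYJ : Y ⊆ J) (hJ : NonUnitalAlgebra.adjoin F G₀ = J)
    (hnil : ∀ (ι : Type) [Fintype ι] [DecidableEq ι] (A : Matrix ι ι B),
      A ∈ matSet (J : Set B) ι → IsNilpotent A)
    (hinf : ¬ FiniteDimensional F J) (k : ℕ)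
    (hgrow : ∃ C : ℕ, ∀ n : ℕ, 1 ≤ n → Module.Finite F ↥((Submodule.span F (insert 1 G₀)) ^ n) ∧
      Module.finrank F ↥((Submodule.span F (insert 1 G₀)) ^ n) ≤ C * n ^ k)
    (hel : ∀ r : Matrix (Fin 3) (Fin 3) B, r ∈ triAlg J →
      ∃ u ∈ Gam F G Y, (u : Matrix (Fin 3) (Fin 3) B) = 1 + r) :
    ∃ (R : Type) (_ : NonUnitalRing R) (_ : Module F R)
      (_ : IsScalarTower F R R) (_ : SMulCommClass F R R),
      IsNil R ∧ (∀ m : ℕ, IsNil (Matrix (Fin m) (Fin m) R)) ∧ ¬ FiniteDimensional F R ∧
      (∃ S : Set R, S.Finite ∧ NonUnitalAlgebra.adjoin F S = ⊤ ∧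
        ∃ C : ℕ, ∀ n : ℕ, 1 ≤ n → growth F S n ≤ C * n ^ k) ∧
      ∃ T : Set R, T.Finite ∧ GeneratesAdjoint T := by
  classical
  have hG₀J : G₀ ⊆ J := by
    rw [← hJ]
    exact NonUnitalAlgebra.subset_adjoin F
  have htri : ∀ A : Matrix (Fin 3) (Fin 3) B, A ∈ triAlg J → IsNilpotent A :=
    triAlg_nil J fun A hA => hnil (Fin 3) A hA
  refine ⟨triAlg J, inferInstance, inferInstance, inferInstance, inferInstance, ?_, ?_, ?_, ?_, ?_⟩
  · -- nil
    intro x
    obtain ⟨n, hn⟩ := htri _ x.2
    refine ⟨n, Subtype.ext ?_⟩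
    rw [rpow_coe, pow_succ, hn, zero_mul]
    rfl
  · -- all matrix rings are nil
    intro m A
    obtain ⟨n, hn⟩ := hat_nil J hnil A
    refine ⟨n, hat_injective ?_⟩
    rw [rpow_hat, pow_succ, hn, zero_mul]
    rfl
  · -- infinite dimension
    intro hfd
    apply hinf
    let g : J →ₗ[F] triAlg J :=
      { toFun := fun x => ⟨Matrix.single 0 0 (x : B), single_mem_triAlg 0 0 x.2⟩
        map_add' := fun x y => by
          apply Subtype.ext
          change Matrix.single 0 0 ((x : B) + (y : B)) = _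
          rw [Matrix.single_add]
          rfl
        map_smul' := fun c x => by
          apply Subtype.ext
          change Matrix.single 0 0 (c • (x : B)) = c • Matrix.single 0 0 (x : B)
          rw [Matrix.smul_single] }
    have hg : Function.Injective g := by
      intro x y hxy
      have h2 : Matrix.single 0 0 (x : B) = Matrix.single (0 : Fin 3) (0 : Fin 3) (y : B) :=
        congrArg Subtype.val hxy
      have h3 := congrFun (congrFun h2 0) 0
      rw [Matrix.single_apply_same, Matrix.single_apply_same] at h3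
      exact Subtype.ext h3
    exact FiniteDimensional.of_injective g hg
  · have hSfin : ((Subtype.val : triAlg J → Matrix (Fin 3) (Fin 3) B) ⁻¹' triGens G₀).Finite :=
      (triGens_finite hG₀).preimage Subtype.val_injective.injOn
    refine ⟨_, hSfin, ?_, ?_⟩
    · -- generation
      rw [eq_top_iff]
      rintro ⟨x, hx⟩ -
      have hx' : x ∈ NonUnitalAlgebra.adjoin F (triGens G₀) := by
        rw [adjoin_triGens, hJ]
        exact hx
      have key : ∀ y ∈ NonUnitalAlgebra.adjoin F (triGens G₀), ∃ hy : y ∈ triAlg J,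
          (⟨y, hy⟩ : triAlg J) ∈ NonUnitalAlgebra.adjoin F
            ((Subtype.val : triAlg J → Matrix (Fin 3) (Fin 3) B) ⁻¹' triGens G₀) := by
        intro y hy
        induction hy using NonUnitalAlgebra.adjoin_induction with
        | mem z hz =>
          exact ⟨triGens_subset hG₀J hz, NonUnitalAlgebra.subset_adjoin F hz⟩
        | add z w _ _ hz hw =>
          obtain ⟨hz1, hz2⟩ := hz
          obtain ⟨hw1, hw2⟩ := hw
          exact ⟨add_mem hz1 hw1, add_mem hz2 hw2⟩
        | zero => exact ⟨zero_mem _, zero_mem _⟩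
        | mul z w _ _ hz hw =>
          obtain ⟨hz1, hz2⟩ := hz
          obtain ⟨hw1, hw2⟩ := hw
          exact ⟨mul_mem hz1 hw1, mul_mem hz2 hw2⟩
        | smul c z _ hz =>
          obtain ⟨hz1, hz2⟩ := hz
          exact ⟨SMulMemClass.smul_mem c hz1, SMulMemClass.smul_mem c hz2⟩
      exact (key x hx').2
    · -- growth
      obtain ⟨C, hC⟩ := hgrow
      refine ⟨9 * C, fun n hn => ?_⟩
      obtain ⟨hf, hle⟩ := hC n hn
      set W : Submodule F B := Submodule.span F (insert 1 G₀) with hW
      have h1W : (1 : Submodule F B) ≤ W := by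
        rw [Submodule.one_le]
        exact Submodule.subset_span (Set.mem_insert _ _)
      set S : Set (triAlg J) := (Subtype.val : triAlg J → Matrix (Fin 3) (Fin 3) B) ⁻¹' triGens G₀
        with hS
      have hSW : ∀ s ∈ S, ∀ i j, (s : Matrix (Fin 3) (Fin 3) B) i j ∈ W :=
        fun s hs => triGens_matSub G₀ hs
      set ψ : triAlg J →ₗ[F] Matrix (Fin 3) (Fin 3) B :=
        (NonUnitalSubalgebra.toSubmodule (triAlg J)).subtype with hψ
      have hψi : Function.Injective ψ := Subtype.val_injective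
      have hle2 : (Submodule.span F (⋃ i < n, prods S i)).map ψ ≤ matSub (W ^ n) := by
        rw [Submodule.map_span_le]
        intro x hx
        obtain ⟨i, hx⟩ := Set.mem_iUnion.1 hx
        obtain ⟨hi, hx⟩ := Set.mem_iUnion.1 hx
        have h1 := prods_mem hSW i x hx
        have h2 : W ^ (i + 1) ≤ W ^ n := by
          obtain ⟨j, hj⟩ := Nat.exists_eq_add_of_le (Nat.succ_le_of_lt hi)
          calc W ^ (i + 1) = W ^ (i + 1) * 1 := (mul_one _).symm
            _ ≤ W ^ (i + 1) * W ^ j := mul_le_mul' le_rfl (one_le_pow_of_one_le' h1W j)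
            _ = W ^ n := by rw [hj, ← pow_add]
        intro a b
        exact h2 (h1 a b)
      have hfin2 := finite_matSub (W ^ n)
      have e1 : Module.finrank F (Submodule.span F (⋃ i < n, prods S i)) =
          Module.finrank F ((Submodule.span F (⋃ i < n, prods S i)).map ψ) :=
        LinearEquiv.finrank_eq (Submodule.equivMapOfInjective ψ hψi _)
      have e2 := Submodule.finrank_mono hle2
      rw [finrank_matSub] at e2
      unfold growth
      rw [e1]
      refine e2.trans ?_
      calc 9 * Module.finrank F ↥(W ^ n) ≤ 9 * (C * n ^ k) := Nat.mul_le_mul_left 9 hle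
        _ = 9 * C * n ^ k := by ring
  · -- the adjoint group
    have hTfin : ((Subtype.val : triAlg J → Matrix (Fin 3) (Fin 3) B) ⁻¹'
        elemGens F G Y).Finite :=
      (elemGens_finite hG hY).preimage Subtype.val_injective.injOn
    refine ⟨_, hTfin, ?_⟩
    intro H hT h0 hmul hinv
    have key : ∀ u ∈ Gam F G Y, ∃ h ∈ H, (u : Matrix (Fin 3) (Fin 3) B) = 1 + h := by
      intro u hu
      unfold Gam at hu
      induction hu using Subgroup.closure_induction with
      | mem v hv =>
        obtain ⟨t, ht, hv⟩ := hv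
        have htJ : t ∈ triAlg J := elemGens_subset hGJ hYJ ht
        exact ⟨⟨t, htJ⟩, hT ht, hv⟩
      | one => exact ⟨0, h0, by simp⟩
      | mul u v _ _ hu hv =>
        obtain ⟨a, ha, hua⟩ := hu
        obtain ⟨b, hb, hvb⟩ := hv
        refine ⟨a + b + a * b, hmul a ha b hb, ?_⟩
        rw [Units.val_mul, hua, hvb]
        show (1 + (a : Matrix (Fin 3) (Fin 3) B)) * (1 + (b : Matrix (Fin 3) (Fin 3) B)) =
          1 + ((a : Matrix (Fin 3) (Fin 3) B) + (b : Matrix (Fin 3) (Fin 3) B) +
            (a : Matrix (Fin 3) (Fin 3) B) * (b : Matrix (Fin 3) (Fin 3) B))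
        noncomm_ring
      | inv u _ hu =>
        obtain ⟨a, ha, hua⟩ := hu
        have h1 : ((u⁻¹ : (Matrix (Fin 3) (Fin 3) B)ˣ) : Matrix (Fin 3) (Fin 3) B) *
            (1 + (a : Matrix (Fin 3) (Fin 3) B)) = 1 := by
          rw [← hua]; exact Units.inv_mul u
        have h2 : (1 + (a : Matrix (Fin 3) (Fin 3) B)) *
            ((u⁻¹ : (Matrix (Fin 3) (Fin 3) B)ˣ) : Matrix (Fin 3) (Fin 3) B) = 1 := by
          rw [← hua]; exact Units.mul_inv u
        obtain ⟨b, hb, hub⟩ := inv_mem_one_add a.2 (htri _ a.2) h1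
        rw [hub] at h1 h2
        refine ⟨⟨b, hb⟩, hinv a ha ⟨b, hb⟩ ?_ ?_, hub⟩
        · apply Subtype.ext
          show (a : Matrix (Fin 3) (Fin 3) B) + b + (a : Matrix (Fin 3) (Fin 3) B) * b = 0
          have h3 : (1 + (a : Matrix (Fin 3) (Fin 3) B)) * (1 + b) =
            1 + ((a : Matrix (Fin 3) (Fin 3) B) + b + (a : Matrix (Fin 3) (Fin 3) B) * b) := by
            noncomm_ring
          rw [h3] at h2
          simpa using h2
        · apply Subtype.ext
          show b + (a : Matrix (Fin 3) (Fin 3) B) + b * (a : Matrix (Fin 3) (Fin 3) B) = 0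
          have h3 : (1 + b) * (1 + (a : Matrix (Fin 3) (Fin 3) B)) =
            1 + (b + (a : Matrix (Fin 3) (Fin 3) B) + b * (a : Matrix (Fin 3) (Fin 3) B)) := by
            noncomm_ring
          rw [h3] at h1
          simpa using h1
    rw [Set.eq_univ_iff_forall]
    intro r
    obtain ⟨u, hu, hur⟩ := hel r r.2
    obtain ⟨h, hh, huh⟩ := key u hu
    have : (r : Matrix (Fin 3) (Fin 3) B) = (h : Matrix (Fin 3) (Fin 3) B) := by
      rw [hur] at huh
      exact add_left_cancel huh
    rw [Subtype.ext this]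
    exact hh

end Pool.Agent.NilAdjF
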